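import Pool.Agent.MP_c130bd_co.RVM.Link

/-!
# Initial segments of Radon vectors (MP_c130bd_co): Radon partitions and separation
-/

set_option autoImplicit false

namespace Pool.Agent.RIS

open Finset Pool.Agent.RVM

/-- theorem of the alternatives -/
theorem alt {ι : Type*} [Fintype ι] {m : ℕ} (u : ι → Fin m → ℝ) :
    (∃ Y : Fin m → ℝ, ∀ j, 0 < u j ⬝ᵥ Y) ∨ ∃ c : ι → ℝ, c ≠ 0 ∧ (∀ j, 0 ≤ c j) ∧ ∑ j, c j • u j = 0 := by
  classical
  by_cases h : (0 : Fin m → ℝ) ∈ convexHull ℝ (Set.range u)
  · right
    rw [convexHull_range_eq_exists_affineCombination] at h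
    obtain ⟨s, w, hw0, hw1, hw⟩ := h
    rw [Finset.affineCombination_eq_linear_combination _ _ _ hw1] at hw
    refine ⟨fun j => if j ∈ s then w j else 0, ?_, ?_, ?_⟩
    · intro h0
      have : s.sum w = 0 := by
        apply Finset.sum_eq_zero
        intro j hj
        have := congrFun h0 j
        simpa [hj] using this
      rw [hw1] at this
      exact one_ne_zero this
    · intro j
      by_cases hj : j ∈ s
      · simp only [hj, if_true]
        exact hw0 j hj
      · simp only [hj, if_false]
        exact le_rfl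
    · rw [← hw]
      simp only [ite_smul, zero_smul]
      rw [Finset.sum_ite_mem, Finset.univ_inter]
  · left
    obtain ⟨f, r, hf0, hf⟩ := geometric_hahn_banach_point_closed (convex_convexHull ℝ (Set.range u))
      ((Set.finite_range u).isClosed_convexHull ℝ) h
    rw [map_zero] at hf0
    refine ⟨fun i => f (Pi.single i 1), ?_⟩
    intro j
    have h1 := hf (u j) (subset_convexHull ℝ _ ⟨j, rfl⟩)
    have h2 : f (u j) = u j ⬝ᵥ fun i => f (Pi.single i 1) := by
      have h3 := LinearMap.pi_apply_eq_sum_univ (f : (Fin m → ℝ) →ₗ[ℝ] ℝ) (u j)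
      rw [ContinuousLinearMap.coe_coe] at h3
      rw [h3]
      unfold dotProduct
      apply Finset.sum_congr rfl
      intro i _
      rw [smul_eq_mul]
      congr 2
      funext k
      rw [Pi.single_apply]
      simp only [eq_comm]
    linarith

/-- `A` is a cell of the arrangement of the hyperplanes orthogonal to the vectors -/
def Cell {ι : Type*} {m : ℕ} (V : ι → Fin m → ℝ) (A : Finset ι) : Prop :=
  ∃ Y : Fin m → ℝ, ∀ j, (j ∈ A → 0 < V j ⬝ᵥ Y) ∧ (j ∉ A → V j ⬝ᵥ Y < 0)

theorem radI_iff {d : ℕ} {ι : Type*} [Fintype ι] [DecidableEq ι] (p : ι → E d) (A : Finset ι) :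
    RadI p A ↔ ¬ Cell (fun j => hv (p j)) A := by
  constructor
  · rintro ⟨c, hc, hc0, hcA⟩ ⟨Y, hY⟩
    have h1 : ∑ j, c j * (hv (p j) ⬝ᵥ Y) = 0 := by
      have h2 : (∑ j, c j • hv (p j)) ⬝ᵥ Y = 0 := by
        rw [show ∑ j, c j • hv (p j) = 0 from hc, zero_dotProduct]
      rw [sum_dotProduct] at h2
      rw [← h2]
      apply Finset.sum_congr rfl
      intro j _
      rw [smul_dotProduct, smul_eq_mul]
    have h2 : ∀ j ∈ univ, 0 ≤ c j * (hv (p j) ⬝ᵥ Y) := by
      intro j _
      by_cases hj : j ∈ A
      · exact mul_nonneg ((hcA j).1 hj) ((hY j).1 hj).le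
      · exact mul_nonneg_of_nonpos_of_nonpos ((hcA j).2 hj) ((hY j).2 hj).le
    rw [Finset.sum_eq_zero_iff_of_nonneg h2] at h1
    apply hc0
    funext j
    have h3 := h1 j (Finset.mem_univ j)
    by_cases hj : j ∈ A
    · exact (mul_eq_zero.1 h3).resolve_right ((hY j).1 hj).ne'
    · exact (mul_eq_zero.1 h3).resolve_right ((hY j).2 hj).ne
  · intro h
    rcases alt (fun j => (if j ∈ A then (1 : ℝ) else -1) • hv (p j)) with ⟨Y, hY⟩ | ⟨c, hc0, hc, hs⟩
    · exfalso
      apply h
      refine ⟨Y, fun j => ?_⟩
      have h1 := hY j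
      rw [smul_dotProduct, smul_eq_mul] at h1
      constructor
      · intro hj
        rw [if_pos hj, one_mul] at h1
        exact h1
      · intro hj
        rw [if_neg hj] at h1
        show hv (p j) ⬝ᵥ Y < 0
        linarith
    · refine ⟨fun j => if j ∈ A then c j else -c j, ?_, ?_, ?_⟩
      · unfold Dep
        rw [← hs]
        apply Finset.sum_congr rfl
        intro j _
        by_cases hj : j ∈ A
        · simp [hj]
        · simp [hj]
      · intro h0
        apply hc0
        funext j
        have h1 := congrFun h0 j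
        by_cases hj : j ∈ A
        · simpa [hj] using h1
        · simpa [hj] using h1
      · intro j
        constructor
        · intro hj
          simp only [hj, if_true]
          exact hc j
        · intro hj
          simp only [hj, if_false]
          have := hc j
          linarith

open Classical in
/-- the number of the Radon partitions of a type as a number of sets -/
theorem Rc_card {d : ℕ} {ι : Type*} [Fintype ι] [DecidableEq ι] (p : ι → E d) (i : ℕ) (hi : 2 * i < Fintype.card ι) :
    Rc p i = (univ.filter fun A : Finset ι => A.card = i ∧ RadI p A).card := by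
  unfold Rc
  symm
  apply Finset.card_bij (fun A _ => ({A, Aᶜ} : Finset (Finset ι)))
  · intro A hA
    rw [Finset.mem_filter] at hA
    rw [Finset.mem_filter]
    exact ⟨Finset.mem_univ _, A, rfl, hA.2.1, hA.2.2⟩
  · intro A hA B hB h
    rw [Finset.mem_filter] at hA hB
    have h1 : A ∈ ({B, Bᶜ} : Finset (Finset ι)) := by
      rw [← h]
      simp
    rw [Finset.mem_insert, Finset.mem_singleton] at h1
    rcases h1 with h1 | h1
    · exact h1
    · exfalso
      have h2 := congrArg Finset.card h1
      rw [Finset.card_compl, hA.2.1, hB.2.1] at h2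
      omega
  · intro π hπ
    rw [Finset.mem_filter] at hπ
    obtain ⟨-, A, rfl, h1, h2⟩ := hπ
    refine ⟨A, ?_, rfl⟩
    rw [Finset.mem_filter]
    exact ⟨Finset.mem_univ _, h1, h2⟩

end Pool.Agent.RIS
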