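import Pool.Agent.MP_c130bd_co.RIS.Count

/-!
# Initial segments of Radon vectors (MP_c130bd_co): the choice of the ranks
-/

set_option autoImplicit false

namespace Pool.Agent.RIS

open Finset

/-- the ranks -/
def LL (n M J : ℕ) (s g : ℕ → ℕ) (u w : ℕ → Prop) [DecidablePred u] [DecidablePred w] (j : ℕ) : ℕ :=
  if j < M then (if j ≤ J then s j else if j < M - 1 - J then j else if u (M - 1 - j) then 0 else j)
  else if j < n - 1 - J then g (j - M) else if w (n - 1 - j) then 0 else J + 1

theorem LL_le {n M J : ℕ} {s g : ℕ → ℕ} {u w : ℕ → Prop} [DecidablePred u] [DecidablePred w] (hM : 2 * J + 2 ≤ M) (_ : M + J + 1 ≤ n)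
    (hs : ∀ b ≤ J, s b ≤ b) (hg : ∀ q, g q ≤ J + 1) (j : ℕ) (_ : j < n) : LL n M J s g u w j ≤ j := by
  unfold LL
  split_ifs with h1 h2 h3 h4 h5 h6
  · exact hs j h2
  · exact le_rfl
  · exact Nat.zero_le _
  · exact le_rfl
  · have := hg (j - M)
    omega
  · exact Nat.zero_le _
  · omega

theorem sum_refl (F : ℕ → ℕ) (A J : ℕ) (hJ : J < A) :
    ∑ j ∈ Ico (A - 1 - J) A, F j = ∑ l ∈ range (J + 1), F (A - 1 - l) := by
  rw [Finset.sum_Ico_eq_sum_range, show A - (A - 1 - J) = J + 1 by omega, ← Finset.sum_range_reflect]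
  apply Finset.sum_congr rfl
  intro l hl
  rw [Finset.mem_range] at hl
  congr 1
  omega

theorem sum_le_ind (J v : ℕ) (hv : v ≤ J) : ∑ l ∈ range (J + 1), (if l ≤ v then 1 else 0) = v + 1 := by
  rw [← Finset.card_filter]
  have : (range (J + 1)).filter (fun l => l ≤ v) = range (v + 1) := by
    ext l
    simp only [Finset.mem_filter, Finset.mem_range]
    omega
  rw [this, Finset.card_range]

theorem win {n M J : ℕ} {s g : ℕ → ℕ} {u w : ℕ → Prop} [DecidablePred u] [DecidablePred w] (hM : 2 * J + 2 ≤ M) (hn : M + J + 1 ≤ n)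
    (hs : ∀ b ≤ J, s b ≤ b) (hg : ∀ q, g q ≤ J + 1) (v : ℕ) (hv : v ≤ J) :
    ∑ j ∈ range n, (cw n M (LL n M J s g u w) j v + cw n M (LL n M J s g u w) j (n - 2 - v)) =
      3 * (v + 1) + ∑ b ∈ range (J + 1), (if s b ≤ v ∧ v < b then 1 else 0) +
      ∑ l ∈ range (J + 1), (if u l ∧ v < l then 1 else 0) + ∑ l ∈ range (J + 1), (if w l ∧ v < l then 1 else 0) +
      ∑ q ∈ range (n - 1 - J - M), (if g q ≤ v then 1 else 0) := by
  rw [Finset.range_eq_Ico, sum_split _ (Nat.zero_le (J + 1)) (by omega : J + 1 ≤ n),
    sum_split _ (by omega : J + 1 ≤ M - 1 - J) (by omega : M - 1 - J ≤ n),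
    sum_split _ (by omega : M - 1 - J ≤ M) (by omega : M ≤ n),
    sum_split _ (by omega : M ≤ n - 1 - J) (by omega : n - 1 - J ≤ n), sum_refl _ M J (by omega),
    sum_refl _ n J (by omega)]
  have b1 : ∑ j ∈ Ico 0 (J + 1), (cw n M (LL n M J s g u w) j v + cw n M (LL n M J s g u w) j (n - 2 - v)) =
      ∑ b ∈ range (J + 1), (if s b ≤ v ∧ v < b then 1 else 0) := by
    rw [Finset.range_eq_Ico]
    apply Finset.sum_congr rfl
    intro j hj
    rw [Finset.mem_Ico] at hj
    have h1 := hs j (by omega)
    have e : LL n M J s g u w j = s j := by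
      unfold LL
      rw [if_pos (by omega), if_pos (by omega)]
    unfold cw
    rw [e, if_pos (by omega : j < M)]
    split_ifs <;> omega
  have b2 : ∑ j ∈ Ico (J + 1) (M - 1 - J), (cw n M (LL n M J s g u w) j v + cw n M (LL n M J s g u w) j (n - 2 - v)) = 0 := by
    apply Finset.sum_eq_zero
    intro j hj
    rw [Finset.mem_Ico] at hj
    have e : LL n M J s g u w j = j := by
      unfold LL
      rw [if_pos (by omega), if_neg (by omega), if_pos (by omega)]
    unfold cw
    rw [e, if_pos (by omega : j < M)]
    split_ifs <;> omega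
  have b3 : ∑ l ∈ range (J + 1), (cw n M (LL n M J s g u w) (M - 1 - l) v + cw n M (LL n M J s g u w) (M - 1 - l) (n - 2 - v)) =
      (v + 1) + ∑ l ∈ range (J + 1), (if u l ∧ v < l then 1 else 0) := by
    rw [← sum_le_ind J v hv, ← Finset.sum_add_distrib]
    apply Finset.sum_congr rfl
    intro l hl
    rw [Finset.mem_range] at hl
    have e : LL n M J s g u w (M - 1 - l) = if u l then 0 else M - 1 - l := by
      unfold LL
      rw [if_pos (by omega), if_neg (by omega), if_neg (by omega), show M - 1 - (M - 1 - l) = l by omega]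
    unfold cw
    rw [e, if_pos (by omega : M - 1 - l < M), show M - 1 - (M - 1 - l) = l by omega]
    by_cases hu : u l
    · simp only [hu, if_true, true_and]
      split_ifs <;> omega
    · simp only [hu, if_false, false_and]
      split_ifs <;> omega
  have b4 : ∑ j ∈ Ico M (n - 1 - J), (cw n M (LL n M J s g u w) j v + cw n M (LL n M J s g u w) j (n - 2 - v)) =
      ∑ q ∈ range (n - 1 - J - M), (if g q ≤ v then 1 else 0) := by
    rw [Finset.sum_Ico_eq_sum_range]
    apply Finset.sum_congr rfl
    intro q hq
    rw [Finset.mem_range] at hq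
    have h1 := hg q
    have e : LL n M J s g u w (M + q) = g q := by
      unfold LL
      rw [if_neg (by omega), if_pos (by omega), show M + q - M = q by omega]
    unfold cw
    rw [e, if_neg (by omega : ¬ M + q < M)]
    split_ifs <;> omega
  have b5 : ∑ l ∈ range (J + 1), (cw n M (LL n M J s g u w) (n - 1 - l) v + cw n M (LL n M J s g u w) (n - 1 - l) (n - 2 - v)) =
      2 * (v + 1) + ∑ l ∈ range (J + 1), (if w l ∧ v < l then 1 else 0) := by
    rw [← sum_le_ind J v hv, Finset.mul_sum, ← Finset.sum_add_distrib]
    apply Finset.sum_congr rfl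
    intro l hl
    rw [Finset.mem_range] at hl
    have e : LL n M J s g u w (n - 1 - l) = if w l then 0 else J + 1 := by
      unfold LL
      rw [if_neg (by omega), if_neg (by omega), show n - 1 - (n - 1 - l) = l by omega]
    unfold cw
    rw [e, if_neg (by omega : ¬ n - 1 - l < M), show n - 1 - (n - 1 - l) = l by omega]
    by_cases hw : w l
    · simp only [hw, if_true, true_and]
      split_ifs <;> omega
    · simp only [hw, if_false, false_and]
      split_ifs <;> omega
  rw [b1, b2, b3, b4, b5]
  ring

/-- the stack -/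
theorem stack (c : ℕ → ℕ) (J : ℕ) (hc : ∀ v < J, c v ≤ c (v + 1) + 1) :
    ∃ s g : ℕ → ℕ, (∀ b ≤ J, s b ≤ b) ∧ (∀ q, g q ≤ J) ∧ ∀ v ≤ J,
      c v = ∑ b ∈ range (J + 1), (if s b ≤ v ∧ v < b then 1 else 0) + ∑ q ∈ range (c J), (if g q ≤ v then 1 else 0) := by
  induction J with
  | zero =>
    refine ⟨fun b => b, fun _ => 0, fun b _ => le_rfl, fun q => le_rfl, ?_⟩
    intro v hv
    obtain rfl : v = 0 := by omega
    simp
  | succ J ih =>
    obtain ⟨s, g, hs, hg, h⟩ := ih (fun v hv => hc v (by omega))
    rcases Nat.lt_or_ge (c (J + 1)) (c J) with hlt | hge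
    · have h1 := hc J (by omega)
      have e : c J = c (J + 1) + 1 := by omega
      refine ⟨fun b => if b = J + 1 then g (c (J + 1)) else s b, g, ?_, fun q => (hg q).trans (Nat.le_succ J), ?_⟩
      · intro b hb
        by_cases hb1 : b = J + 1
        · simp only [hb1, if_true]
          exact (hg _).trans (Nat.le_succ J)
        · simp only [hb1, if_false]
          exact hs b (by omega)
      · intro v hv
        rw [Finset.sum_range_succ]
        simp only [if_true]
        have e1 : ∑ b ∈ range (J + 1), (if (if b = J + 1 then g (c (J + 1)) else s b) ≤ v ∧ v < b then 1 else 0) =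
            ∑ b ∈ range (J + 1), (if s b ≤ v ∧ v < b then 1 else 0) := by
          apply Finset.sum_congr rfl
          intro b hb
          rw [Finset.mem_range] at hb
          rw [if_neg (by omega : ¬ b = J + 1)]
        rw [e1]
        rcases Nat.lt_or_ge J v with hv1 | hv1
        · obtain rfl : v = J + 1 := by omega
          have e2 : ∑ b ∈ range (J + 1), (if s b ≤ J + 1 ∧ J + 1 < b then 1 else 0) = 0 := by
            apply Finset.sum_eq_zero
            intro b hb
            rw [Finset.mem_range] at hb
            rw [if_neg (by omega)]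
          have e3 : ∑ q ∈ range (c (J + 1)), (if g q ≤ J + 1 then 1 else 0) = c (J + 1) := by
            rw [Finset.sum_congr rfl (g := fun _ => 1)]
            · simp
            · intro q _
              rw [if_pos ((hg q).trans (Nat.le_succ J))]
          rw [e2, e3, if_neg (by omega)]
          omega
        · rw [h v hv1, e, Finset.sum_range_succ (fun q => if g q ≤ v then 1 else 0)]
          have e4 : (if g (c (J + 1)) ≤ v ∧ v < J + 1 then 1 else 0) = if g (c (J + 1)) ≤ v then 1 else 0 := by
            apply if_congr _ rfl rfl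
            constructor
            · exact fun h => h.1
            · exact fun h => ⟨h, by omega⟩
          rw [e4]
          ring
    · refine ⟨fun b => if b = J + 1 then J + 1 else s b, fun q => if q < c J then g q else J + 1, ?_, ?_, ?_⟩
      · intro b hb
        by_cases hb1 : b = J + 1
        · simp only [hb1, if_true]
          exact le_rfl
        · simp only [hb1, if_false]
          exact hs b (by omega)
      · intro q
        by_cases hq : q < c J
        · simp only [hq, if_true]
          exact (hg q).trans (Nat.le_succ J)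
        · simp only [hq, if_false]
          exact le_rfl
      · intro v hv
        rw [Finset.sum_range_succ]
        simp only [if_true]
        have e1 : ∑ b ∈ range (J + 1), (if (if b = J + 1 then J + 1 else s b) ≤ v ∧ v < b then 1 else 0) =
            ∑ b ∈ range (J + 1), (if s b ≤ v ∧ v < b then 1 else 0) := by
          apply Finset.sum_congr rfl
          intro b hb
          rw [Finset.mem_range] at hb
          rw [if_neg (by omega : ¬ b = J + 1)]
        rw [e1, if_neg (by omega : ¬ (J + 1 ≤ v ∧ v < J + 1)), add_zero]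
        rcases Nat.lt_or_ge J v with hv1 | hv1
        · obtain rfl : v = J + 1 := by omega
          have e2 : ∑ b ∈ range (J + 1), (if s b ≤ J + 1 ∧ J + 1 < b then 1 else 0) = 0 := by
            apply Finset.sum_eq_zero
            intro b hb
            rw [Finset.mem_range] at hb
            rw [if_neg (by omega)]
          have e3 : ∑ q ∈ range (c (J + 1)), (if (if q < c J then g q else J + 1) ≤ J + 1 then 1 else 0) = c (J + 1) := by
            rw [Finset.sum_congr rfl (g := fun _ => 1)]
            · simp
            · intro q _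
              rw [if_pos]
              split_ifs
              · exact (hg q).trans (Nat.le_succ J)
              · exact le_rfl
          rw [e2, e3, zero_add]
        · rw [h v hv1]
          congr 1
          rw [Finset.range_eq_Ico, Finset.range_eq_Ico, sum_split _ (Nat.zero_le (c J)) hge]
          have e5 : ∑ q ∈ Ico (c J) (c (J + 1)), (if (if q < c J then g q else J + 1) ≤ v then 1 else 0) = 0 := by
            apply Finset.sum_eq_zero
            intro q hq
            rw [Finset.mem_Ico] at hq
            rw [if_neg (by omega : ¬ q < c J), if_neg (by omega)]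
          rw [e5, add_zero]
          apply Finset.sum_congr rfl
          intro q hq
          rw [Finset.mem_Ico] at hq
          have e6 : (if q < c J then g q else J + 1) = g q := if_pos hq.2
          simp only [e6]

theorem sum_Ioc_split (F : ℕ → ℕ) {v J : ℕ} (hv : v < J) :
    ∑ l ∈ Ioc v J, F l = F (v + 1) + ∑ l ∈ Ioc (v + 1) J, F l := by
  have : Ioc v J = insert (v + 1) (Ioc (v + 1) J) := by
    ext l
    simp only [Finset.mem_insert, Finset.mem_Ioc]
    omega
  rw [this, Finset.sum_insert]
  rw [Finset.mem_Ioc]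
  omega

/-- The choice of the ranks: all the vectors of the theorem occur. -/
theorem exists_win (n M J : ℕ) (hM : 2 * J + 2 ≤ M) (hn : M + J + 1 ≤ n) (e : ℕ → ℕ)
    (hmono : ∀ j < J, e j ≤ e (j + 1)) (htop : e J + M ≤ n + 2 * J + 2)
    (hlow : ∀ j ≤ J, 3 * (j + 1) + ∑ t ∈ Ioc j J, max 2 (e t - e (t - 1)) ≤ e J) :
    ∃ L : ℕ → ℕ, (∀ b < n, L b ≤ b) ∧ (∀ m < n, M ≤ m → L m ≤ J + 1) ∧
      ∀ v ≤ J, ∑ j ∈ range n, (cw n M L j v + cw n M L j (n - 2 - v)) = e v := by
  set δ : ℕ → ℕ := fun l => 2 - (e l - e (l - 1)) with hδ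
  -- the reduced vector
  have hsum : ∀ v ≤ J, ∑ t ∈ Ioc v J, max 2 (e t - e (t - 1)) + e v = e J + ∑ t ∈ Ioc v J, δ t := by
    intro v hv
    induction hk : J - v generalizing v with
    | zero =>
      obtain rfl : v = J := by omega
      simp
    | succ k ih =>
      have h1 := ih (v + 1) (by omega) (by omega)
      rw [sum_Ioc_split _ (by omega : v < J), sum_Ioc_split δ (by omega : v < J)]
      have h2 := hmono v (by omega)
      have h3 : δ (v + 1) = 2 - (e (v + 1) - e v) := by
        rw [hδ]
        simp
      rw [h3, Nat.add_sub_cancel]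
      omega
  have hc0 : ∀ v ≤ J, 3 * (v + 1) + ∑ t ∈ Ioc v J, δ t ≤ e v := by
    intro v hv
    have h1 := hsum v hv
    have h2 := hlow v hv
    omega
  set c : ℕ → ℕ := fun v => e v - 3 * (v + 1) - ∑ t ∈ Ioc v J, δ t with hc
  have hcv : ∀ v ≤ J, e v = 3 * (v + 1) + ∑ t ∈ Ioc v J, δ t + c v := by
    intro v hv
    have := hc0 v hv
    simp only [hc]
    omega
  obtain ⟨s, g, hs, hg, h⟩ := stack c J (by
    intro v hv
    have h1 := hcv v hv.le
    have h2 := hcv (v + 1) hv
    rw [sum_Ioc_split _ hv] at h1
    have h3 := hmono v hv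
    have h4 : δ (v + 1) = 2 - (e (v + 1) - e v) := by
      rw [hδ]
      simp
    omega)
  have hcJ : c J ≤ n - 1 - J - M := by
    have h1 := hcv J le_rfl
    rw [Finset.Ioc_self, Finset.sum_empty] at h1
    omega
  have hg' : ∀ q, (if q < c J then g q else J + 1) ≤ J + 1 := by
    intro q
    split_ifs
    · exact (hg q).trans (Nat.le_succ J)
    · exact le_rfl
  refine ⟨LL n M J s (fun q => if q < c J then g q else J + 1) (fun l => 1 ≤ l ∧ 1 ≤ δ l) (fun l => 1 ≤ l ∧ 2 ≤ δ l), ?_, ?_, ?_⟩
  · exact LL_le hM hn hs hg'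
  · intro m hm hMm
    unfold LL
    rw [if_neg (by omega)]
    split_ifs with h1 h2
    · exact hg' _
    · exact Nat.zero_le _
    · exact le_rfl
  · intro v hv
    rw [win hM hn hs hg' v hv, hcv v hv, h v hv]
    have e1 : ∑ l ∈ range (J + 1), (if (1 ≤ l ∧ 1 ≤ δ l) ∧ v < l then 1 else 0) +
        ∑ l ∈ range (J + 1), (if (1 ≤ l ∧ 2 ≤ δ l) ∧ v < l then 1 else 0) = ∑ t ∈ Ioc v J, δ t := by
      rw [← Finset.sum_add_distrib]
      have hsub : Ioc v J ⊆ range (J + 1) := by
        intro l hl
        rw [Finset.mem_Ioc] at hl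
        rw [Finset.mem_range]
        omega
      rw [← Finset.sum_subset hsub]
      · apply Finset.sum_congr rfl
        intro l hl
        rw [Finset.mem_Ioc] at hl
        have : δ l ≤ 2 := by
          simp only [hδ]
          omega
        split_ifs <;> omega
      · intro l hl hl'
        rw [Finset.mem_range] at hl
        rw [Finset.mem_Ioc] at hl'
        rw [if_neg (by omega), if_neg (by omega)]
        rfl
    have e2 : ∑ q ∈ range (n - 1 - J - M), (if (if q < c J then g q else J + 1) ≤ v then 1 else 0) =
        ∑ q ∈ range (c J), (if g q ≤ v then 1 else 0) := by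
      rw [Finset.range_eq_Ico, Finset.range_eq_Ico, sum_split _ (Nat.zero_le (c J)) hcJ]
      have e5 : ∑ q ∈ Ico (c J) (n - 1 - J - M), (if (if q < c J then g q else J + 1) ≤ v then 1 else 0) = 0 := by
        apply Finset.sum_eq_zero
        intro q hq
        rw [Finset.mem_Ico] at hq
        rw [if_neg (by omega : ¬ q < c J), if_neg (by omega)]
      rw [e5, add_zero]
      apply Finset.sum_congr rfl
      intro q hq
      rw [Finset.mem_Ico] at hq
      have e6 : (if q < c J then g q else J + 1) = g q := if_pos hq.2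
      simp only [e6]
    rw [e2]
    omega

end Pool.Agent.RIS
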