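import Pool.Agent.MP_c130bd_co.RIS.KSet
import Pool.Agent.MP_c130bd_co.RIS.Win
import Pool.Agent.MP_c130bd_co.RIS.Alt

/-!
# Initial segments of Radon vectors (MP_c130bd_co): point sets in the plane
-/

set_option autoImplicit false

namespace Pool.Agent.RIS

open Finset Pool.Agent.RVM

open Classical in
theorem lft_fin (x y : ℕ → ℝ) (n : ℕ) (i j : Fin n) :
    (univ.filter fun l : Fin n => 0 < dt (fun a : Fin n => x a) (fun a : Fin n => y a) i j l).card = lft x y n i j := by
  unfold lft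
  rw [Finset.card_filter, Finset.card_filter]
  exact Fin.sum_univ_eq_sum_range (fun l => if 0 < dt x y i j l then 1 else 0) n

open Classical in
theorem dpc_fin (x y : ℕ → ℝ) (n v : ℕ) :
    (univ.filter fun r : Fin n × Fin n => r.1 ≠ r.2 ∧
      (univ.filter fun l : Fin n => 0 < dt (fun a : Fin n => x a) (fun a : Fin n => y a) r.1 r.2 l).card = v).card = dpc x y n v := by
  unfold dpc
  rw [Finset.card_filter, Fintype.sum_prod_type]
  simp only [lft_fin]
  rw [← Fin.sum_univ_eq_sum_range (fun p => ∑ q ∈ range n, if p ≠ q ∧ lft x y n p q = v then 1 else 0) n]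
  apply Finset.sum_congr rfl
  intro i _
  rw [← Fin.sum_univ_eq_sum_range (fun q => if (i : ℕ) ≠ q ∧ lft x y n i q = v then 1 else 0) n]
  apply Finset.sum_congr rfl
  intro j _
  apply if_congr _ rfl rfl
  rw [Ne, Ne, Fin.ext_iff]

variable {n M : ℕ} {L : ℕ → ℕ} {x y : ℕ → ℝ}

theorem Cfg.ne_fin (h : Cfg n M L x y) (a b c : Fin n) (hab : a ≠ b) (hac : a ≠ c) (hbc : b ≠ c) :
    dt (fun a : Fin n => x a) (fun a : Fin n => y a) a b c ≠ 0 :=
  h.ne_zero a.2 b.2 c.2 (fun h => hab (Fin.ext h)) (fun h => hac (Fin.ext h)) (fun h => hbc (Fin.ext h))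

open Classical in
theorem Cfg.sep_count (h : Cfg n M L x y) (hMn : M ≤ n) (hL : ∀ b < n, L b ≤ b) (v : ℕ) (hv : v + 2 ≤ n) :
    (univ.filter fun A : Finset (Fin n) => A.card = v + 1 ∧ SepP (fun a : Fin n => x a) (fun a : Fin n => y a) A).card =
      ∑ j ∈ range n, (cw n M L j v + cw n M L j (n - 2 - v)) := by
  rw [← h.dpc_eq hMn hL v hv, ← dpc_fin, ← kset _ h.ne_fin v (by rw [Fintype.card_fin]; omega)]
  intro a b hab
  exact h.ne a a.2 b b.2 (fun h => hab (Fin.ext h))

/-- the points of the plane -/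
def pt (x y : ℕ → ℝ) (n : ℕ) (i : Fin n) : E 2 := ![x i, y i]

theorem hv_pt (x y : ℕ → ℝ) (n : ℕ) (i : Fin n) (Y : Fin 3 → ℝ) :
    hv (pt x y n i) ⬝ᵥ Y = Y 1 * x i + Y 2 * y i + Y 0 := by
  unfold dotProduct hv pt
  rw [Fin.sum_univ_three]
  simp only [Fin.cons_zero]
  have e1 : (Fin.cons 1 ![x i, y i] : Fin 3 → ℝ) 1 = x i := rfl
  have e2 : (Fin.cons 1 ![x i, y i] : Fin 3 → ℝ) 2 = y i := rfl
  rw [e1, e2]
  ring

theorem cell_pt (x y : ℕ → ℝ) (n : ℕ) (A : Finset (Fin n)) :
    Cell (fun j => hv (pt x y n j)) A ↔ SepP (fun a : Fin n => x a) (fun a : Fin n => y a) A := by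
  constructor
  · rintro ⟨Y, hY⟩
    refine ⟨Y 1, Y 2, Y 0, fun j => ?_⟩
    have := hY j
    simp only [hv_pt] at this
    exact this
  · rintro ⟨a, b, c, hs⟩
    refine ⟨![c, a, b], fun j => ?_⟩
    simp only [hv_pt]
    exact hs j

theorem Cfg.gpc (h : Cfg n M L x y) : GPc (pt x y n) := by
  intro I hI
  have e : D (pt x y n) I = dt (fun a : Fin n => x a) (fun a : Fin n => y a) (I 0) (I 1) (I 2) := by
    unfold D hv pt
    rw [Matrix.det_fin_three]
    simp only [Matrix.of_apply, Fin.cons_zero]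
    have e1 : ∀ i : Fin n, (Fin.cons 1 ![x i, y i] : Fin 3 → ℝ) 1 = x i := fun _ => rfl
    have e2 : ∀ i : Fin n, (Fin.cons 1 ![x i, y i] : Fin 3 → ℝ) 2 = y i := fun _ => rfl
    simp only [e1, e2]
    unfold dt
    ring
  rw [e]
  exact h.ne_fin _ _ _ (hI.ne (by decide)) (hI.ne (by decide)) (hI.ne (by decide))

open Classical in
/-- **Point sets in the plane.** -/
theorem plane (n J : ℕ) (hn : 3 * (J + 1) ≤ n) (e : ℕ → ℕ) (hmono : ∀ j < J, e j ≤ e (j + 1)) (htop : e J ≤ n)
    (hlow : ∀ j ≤ J, 3 * (j + 1) + ∑ t ∈ Ioc j J, max 2 (e t - e (t - 1)) ≤ e J) :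
    ∃ S : Finset (E 2), S.card = n ∧ GP S ∧ ∀ j ≤ J, rr S (j + 1) + e j = n.choose (j + 1) := by
  obtain ⟨L, hL, -, hwin⟩ := exists_win n (2 * J + 2) J le_rfl (by omega) e hmono (by omega) hlow
  obtain ⟨x, y, h⟩ := exists_cfg n (2 * J + 2) (by omega) L hL
  have hgp := h.gpc
  have hι : 2 + 1 ≤ Fintype.card (Fin n) := by
    rw [Fintype.card_fin]
    omega
  have hinj := inj_of_gpc hgp hι (by norm_num)
  refine ⟨univ.image (pt x y n), ?_, (gp_iff hinj hι).2 hgp, ?_⟩
  · rw [Finset.card_image_of_injective _ hinj, Finset.card_univ, Fintype.card_fin]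
  · intro j hj
    rw [rr_eq hgp hι (by norm_num), Rc_card _ _ (by rw [Fintype.card_fin]; omega), ← hwin j hj,
      ← h.sep_count (by omega) hL j (by omega)]
    have h1 : (univ.filter fun A : Finset (Fin n) => A.card = j + 1 ∧ RadI (pt x y n) A) =
        (univ.powersetCard (j + 1)).filter fun A => ¬ SepP (fun a : Fin n => x a) (fun a : Fin n => y a) A := by
      ext A
      rw [Finset.mem_filter, Finset.mem_filter, Finset.mem_powersetCard, radI_iff, cell_pt]
      simp
    have h2 : (univ.filter fun A : Finset (Fin n) => A.card = j + 1 ∧ SepP (fun a : Fin n => x a) (fun a : Fin n => y a) A) =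
        (univ.powersetCard (j + 1)).filter fun A => SepP (fun a : Fin n => x a) (fun a : Fin n => y a) A := by
      ext A
      rw [Finset.mem_filter, Finset.mem_filter, Finset.mem_powersetCard]
      simp
    rw [h1, h2, add_comm, Finset.card_filter_add_card_filter_not, Finset.card_powersetCard, Finset.card_univ,
      Fintype.card_fin]

end Pool.Agent.RIS
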