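import Pool.Agent.MP_c130bd_co.RIS.Ghost
import Pool.Agent.MP_c130bd_co.RIS.Plane

/-!
# Initial segments of Radon vectors (MP_c130bd_co): a small arc near the deep point
-/

set_option autoImplicit false

namespace Pool.Agent.RIS

open Finset Topology

theorem fin_ev {S : Set ℝ} (hS : S.Finite) (ρ : ℝ) : ∀ᶠ w in 𝓝[<] ρ, w ∉ S := by
  have h1 : ∀ᶠ w in Filter.cofinite, w ∉ S := hS.eventually_cofinite_notMem
  have h2 : 𝓝[<] ρ ≤ 𝓝[≠] ρ := nhdsWithin_mono ρ (fun w hw => (ne_of_lt hw : w ≠ ρ))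
  exact (h1.filter_mono (nhdsNE_le_cofinite ρ)).filter_mono h2

theorem quad_ev {A : ℝ} (hA : A ≠ 0) (B C ρ : ℝ) : ∀ᶠ w in 𝓝[<] ρ, A * w ^ 2 + B * w + C ≠ 0 := by
  have hfin : {w : ℝ | A * w ^ 2 + B * w + C = 0}.Finite := by
    set p : Polynomial ℝ := Polynomial.C A * Polynomial.X ^ 2 + Polynomial.C B * Polynomial.X + Polynomial.C C with hp
    have hp0 : p ≠ 0 := by
      intro h0
      have h1 : p.coeff 2 = 0 := by rw [h0, Polynomial.coeff_zero]
      rw [hp] at h1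
      simp at h1
      exact hA h1
    apply (p.roots.toFinset.finite_toSet).subset
    intro w hw
    rw [Finset.mem_coe, Multiset.mem_toFinset, Polynomial.mem_roots hp0, Polynomial.IsRoot.def, hp]
    simp only [Polynomial.eval_add, Polynomial.eval_mul, Polynomial.eval_C, Polynomial.eval_pow, Polynomial.eval_X]
    exact hw
  exact fin_ev hfin ρ

/-- the arc -/
def arc (z : ℝ × ℝ) (w : ℝ) : ℝ × ℝ := (z.1 + w, z.2 + w ^ 2)

/-- the abscissas and the ordinates of all the points -/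
def ex (n K : ℕ) (x : ℕ → ℝ) (z : ℝ × ℝ) (θ : ℕ → ℝ) : Fin n ⊕ Fin K → ℝ :=
  Sum.elim (fun i => x i) (fun t => z.1 + θ t)

def ey (n K : ℕ) (y : ℕ → ℝ) (z : ℝ × ℝ) (θ : ℕ → ℝ) : Fin n ⊕ Fin K → ℝ :=
  Sum.elim (fun i => y i) (fun t => z.2 + θ t ^ 2)

theorem deep_ev (D : ℕ) {x y : ℕ → ℝ} {z : ℝ × ℝ} (h : Deep D x y z) :
    ∃ ρ : ℝ, 0 < ρ ∧ ∀ w, 0 < w → w < ρ → Deep D x y (arc z w) := by
  have hev : ∀ᶠ w in 𝓝[>] (0 : ℝ), ∀ k ∈ range D, 0 < dq x y (D + k) k (arc z w) ∧ 0 < dq x y k (2 * D + k) (arc z w) ∧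
      0 < dq x y (2 * D + k) (D + k) (arc z w) := by
    rw [Filter.eventually_all_finset]
    intro k hk
    rw [Finset.mem_range] at hk
    have hc : ∀ a b : ℕ, 0 < dq x y a b z → ∀ᶠ w in 𝓝[>] (0 : ℝ), 0 < dq x y a b (arc z w) := by
      intro a b hab
      have hcont : Continuous fun w : ℝ => dq x y a b (arc z w) := by
        unfold dq arc
        fun_prop
      have h0 : dq x y a b (arc z 0) = dq x y a b z := by
        unfold dq arc
        simp
      have h1 : ∀ᶠ w in 𝓝 (0 : ℝ), 0 < dq x y a b (arc z w) := by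
        apply hcont.continuousAt.eventually (lt_mem_nhds _)
        show 0 < dq x y a b (arc z 0)
        rw [h0]
        exact hab
      exact h1.filter_mono nhdsWithin_le_nhds
    obtain ⟨-, h1, h2, h3⟩ := h k hk
    exact (hc _ _ h1).and ((hc _ _ h2).and (hc _ _ h3))
  obtain ⟨ρ, hρ, hsub⟩ := mem_nhdsGT_iff_exists_Ioo_subset.1 hev
  refine ⟨ρ, hρ, fun w hw1 hw2 k hk => ?_⟩
  exact ⟨(h k hk).1, hsub ⟨hw1, hw2⟩ k (Finset.mem_range.2 hk)⟩

theorem exists_arc {n M : ℕ} {L : ℕ → ℕ} {x y : ℕ → ℝ} (h : Cfg n M L x y) (D : ℕ) {z : ℝ × ℝ} (hD : Deep D x y z) (K : ℕ) :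
    ∃ θ : ℕ → ℝ, (∀ i t, i < t → t < K → θ i < θ t) ∧ (∀ t < K, Deep D x y (arc z (θ t))) ∧
      ∀ a b c, a ≠ b → a ≠ c → b ≠ c → dt (ex n K x z θ) (ey n K y z θ) a b c ≠ 0 := by
  obtain ⟨ρ, hρ, hdeep⟩ := deep_ev D hD
  obtain ⟨θ, hθ⟩ := exists_seq (fun l f w => (0 < w ∧ w < ρ ∧ ∀ i < l, f i < w) ∧
      (∀ a < n, ∀ b < n, a ≠ b → dq x y a b (arc z w) ≠ 0) ∧ (∀ a < n, z.1 + w - x a ≠ 0) ∧
      ∀ a < n, ∀ i < l, (z.1 + f i - x a) * (z.2 + w ^ 2 - y a) - (z.2 + f i ^ 2 - y a) * (z.1 + w - x a) ≠ 0)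
    (by
      intro l f g w hfg ⟨⟨h1, h2, h3⟩, h4, h5, h6⟩
      refine ⟨⟨h1, h2, fun i hi => by rw [← hfg i hi]; exact h3 i hi⟩, h4, h5, fun a ha i hi => ?_⟩
      rw [← hfg i hi]
      exact h6 a ha i hi)
    (by
      intro l f hf
      have e1 : ∀ᶠ w in 𝓝[<] ρ, w ∈ Set.Ioo 0 ρ := Ioo_mem_nhdsLT hρ
      have e2 : ∀ᶠ w in 𝓝[<] ρ, ∀ i ∈ range l, f i < w := by
        rw [Filter.eventually_all_finset]
        intro i hi
        have h1 : f i < ρ := (hf i (Finset.mem_range.1 hi)).1.2.1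
        filter_upwards [Ioo_mem_nhdsLT h1] with w hw
        exact hw.1
      have e3 : ∀ᶠ w in 𝓝[<] ρ, ∀ a ∈ range n, ∀ b ∈ range n, a ≠ b → dq x y a b (arc z w) ≠ 0 := by
        rw [Filter.eventually_all_finset]
        intro a ha
        rw [Filter.eventually_all_finset]
        intro b hb
        rw [Finset.mem_range] at ha hb
        by_cases hab : a = b
        · exact Filter.Eventually.of_forall fun _ h => absurd hab h
        have hA : x b - x a ≠ 0 := sub_ne_zero.2 (h.ne b hb a ha (Ne.symm hab))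
        filter_upwards [quad_ev hA (-(y b - y a)) ((x b - x a) * (z.2 - y a) - (y b - y a) * (z.1 - x a)) ρ] with w hw _
        intro h0
        apply hw
        rw [← h0]
        unfold dq arc
        ring
      have e4 : ∀ᶠ w in 𝓝[<] ρ, ∀ a ∈ range n, z.1 + w - x a ≠ 0 := by
        rw [Filter.eventually_all_finset]
        intro a _
        filter_upwards [fin_ev (Set.finite_singleton (x a - z.1)) ρ] with w hw
        intro h0
        apply hw
        rw [Set.mem_singleton_iff]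
        linarith
      have e5 : ∀ᶠ w in 𝓝[<] ρ, ∀ a ∈ range n, ∀ i ∈ range l,
          (z.1 + f i - x a) * (z.2 + w ^ 2 - y a) - (z.2 + f i ^ 2 - y a) * (z.1 + w - x a) ≠ 0 := by
        rw [Filter.eventually_all_finset]
        intro a ha
        rw [Filter.eventually_all_finset]
        intro i hi
        rw [Finset.mem_range] at ha hi
        have hA : z.1 + f i - x a ≠ 0 := (hf i hi).2.2.1 a ha
        filter_upwards [quad_ev hA (-(z.2 + f i ^ 2 - y a)) ((z.1 + f i - x a) * (z.2 - y a) -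
          (z.2 + f i ^ 2 - y a) * (z.1 - x a)) ρ] with w hw
        intro h0
        apply hw
        rw [← h0]
        ring
      obtain ⟨w, h1, h2, h3, h4, h5⟩ := (e1.and (e2.and (e3.and (e4.and e5)))).exists
      refine ⟨w, ⟨h1.1, h1.2, fun i hi => h2 i (Finset.mem_range.2 hi)⟩, ?_, ?_, ?_⟩
      · intro a ha b hb
        exact h3 a (Finset.mem_range.2 ha) b (Finset.mem_range.2 hb)
      · intro a ha
        exact h4 a (Finset.mem_range.2 ha)
      · intro a ha i hi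
        exact h5 a (Finset.mem_range.2 ha) i (Finset.mem_range.2 hi)) K
  refine ⟨θ, fun i t hit ht => (hθ t ht).1.2.2 i hit, fun t ht => hdeep _ (hθ t ht).1.1 (hθ t ht).1.2.1, ?_⟩
  set X := ex n K x z θ with hX
  set Y := ey n K y z θ with hY
  -- the four types
  have t0 : ∀ a b c : Fin n, a ≠ b → a ≠ c → b ≠ c → dt X Y (Sum.inl a) (Sum.inl b) (Sum.inl c) ≠ 0 :=
    fun a b c hab hac hbc => h.ne_fin a b c hab hac hbc
  have t1 : ∀ (a b : Fin n) (t : Fin K), a ≠ b → dt X Y (Sum.inl a) (Sum.inl b) (Sum.inr t) ≠ 0 := by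
    intro a b t hab
    exact (hθ t t.2).2.1 a a.2 b b.2 (fun h => hab (Fin.ext h))
  have t2 : ∀ (a : Fin n) (s t : Fin K), s ≠ t → dt X Y (Sum.inl a) (Sum.inr s) (Sum.inr t) ≠ 0 := by
    have key : ∀ (a : Fin n) (s t : Fin K), s < t → dt X Y (Sum.inl a) (Sum.inr s) (Sum.inr t) ≠ 0 := by
      intro a s t hst
      exact (hθ t t.2).2.2.2 a a.2 s hst
    intro a s t hst
    rcases lt_or_gt_of_ne hst with h1 | h1
    · exact key a s t h1
    · rw [dt_swap', neg_ne_zero]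
      exact key a t s h1
  have t3 : ∀ r s t : Fin K, r ≠ s → r ≠ t → s ≠ t → dt X Y (Sum.inr r) (Sum.inr s) (Sum.inr t) ≠ 0 := by
    have hne : ∀ r s : Fin K, r ≠ s → θ r - θ s ≠ 0 := by
      intro r s hrs
      rcases lt_or_gt_of_ne hrs with h1 | h1
      · have := (hθ s s.2).1.2.2 r h1
        exact (by linarith : θ r - θ s < 0).ne
      · have := (hθ r r.2).1.2.2 s h1
        exact (by linarith : 0 < θ r - θ s).ne'
    intro r s t hrs hrt hst
    have e : dt X Y (Sum.inr r) (Sum.inr s) (Sum.inr t) = (θ s - θ r) * (θ t - θ r) * (θ t - θ s) := by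
      show (z.1 + θ s - (z.1 + θ r)) * (z.2 + θ t ^ 2 - (z.2 + θ r ^ 2)) - (z.2 + θ s ^ 2 - (z.2 + θ r ^ 2)) *
        (z.1 + θ t - (z.1 + θ r)) = _
      ring
    rw [e]
    exact mul_ne_zero (mul_ne_zero (hne s r hrs.symm) (hne t r hrt.symm)) (hne t s hst.symm)
  rintro (a | a) (b | b) (c | c) hab hac hbc
  · exact t0 a b c (fun h => hab (by rw [h])) (fun h => hac (by rw [h])) (fun h => hbc (by rw [h]))
  · exact t1 a b c (fun h => hab (by rw [h]))
  · rw [dt_swap', neg_ne_zero]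
    exact t1 a c b (fun h => hac (by rw [h]))
  · exact t2 a b c (fun h => hbc (by rw [h]))
  · rw [← dt_rot]
    exact t1 b c a (fun h => hbc (by rw [h]))
  · rw [dt_swap, neg_ne_zero]
    exact t2 b a c (fun h => hac (by rw [h]))
  · rw [dt_rot X Y (Sum.inl c) (Sum.inr a) (Sum.inr b)]
    exact t2 c a b (fun h => hab (by rw [h]))
  · exact t3 a b c (fun h => hab (by rw [h])) (fun h => hac (by rw [h])) (fun h => hbc (by rw [h]))

end Pool.Agent.RIS
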