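import Pool.Agent.MP_c130bd_co.RIS.Real

/-!
# Initial segments of Radon vectors (MP_c130bd_co): the numbers of the points on the left side
-/

set_option autoImplicit false

namespace Pool.Agent.RIS

open Finset

section

variable {ι : Type*} (x y : ι → ℝ)

theorem dt_rot (a b c : ι) : dt x y b c a = dt x y a b c := by unfold dt; ring

theorem dt_swap (a b c : ι) : dt x y b a c = -dt x y a b c := by unfold dt; ring

theorem dt_swap' (a b c : ι) : dt x y a c b = -dt x y a b c := by unfold dt; ring

theorem dt_self (a b : ι) : dt x y a b a = 0 := by unfold dt; ring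

theorem dt_self' (a b : ι) : dt x y a b b = 0 := by unfold dt; ring

end

/-- the number of the points on the left side of `i → j` -/
noncomputable def lft (x y : ℕ → ℝ) (n i j : ℕ) : ℕ := ((range n).filter fun l => 0 < dt x y i j l).card

variable {n M : ℕ} {L : ℕ → ℕ} {x y : ℕ → ℝ}

theorem Cfg.ne_zero (h : Cfg n M L x y) {a b c : ℕ} (ha : a < n) (hb : b < n) (hc : c < n)
    (hab : a ≠ b) (hac : a ≠ c) (hbc : b ≠ c) : dt x y a b c ≠ 0 := by
  have key : ∀ a b c, a < b → b < c → c < n → dt x y a b c ≠ 0 := by
    intro a b c h1 h2 h3 h0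
    rcases Nat.lt_or_ge c M with h4 | h4
    · have := h.sT a b c h1 h2 h4
      rw [h0, mul_zero] at this
      exact lt_irrefl _ this
    · have := h.sG a b c h1 h2 h3 h4
      rw [h0, mul_zero] at this
      exact lt_irrefl _ this
  intro h0
  rcases lt_or_gt_of_ne hab with h1 | h1 <;> rcases lt_or_gt_of_ne hac with h2 | h2 <;>
    rcases lt_or_gt_of_ne hbc with h3 | h3
  · exact key a b c h1 h3 hc h0
  · exact key a c b h2 h3 hb (by rw [dt_swap', h0, neg_zero])
  · omega
  · exact key c a b h2 h1 hb (by rw [← dt_rot, h0])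
  · exact key b a c h1 h2 hc (by rw [dt_swap, h0, neg_zero])
  · omega
  · exact key b c a h3 h2 ha (by rw [dt_rot, h0])
  · exact key c b a h3 h1 ha (by rw [dt_swap' x y c a b, ← dt_rot x y c a b, h0, neg_zero])

theorem sum_split (F : ℕ → ℕ) {a b c : ℕ} (hab : a ≤ b) (hbc : b ≤ c) :
    ∑ i ∈ Ico a c, F i = ∑ i ∈ Ico a b, F i + ∑ i ∈ Ico b c, F i :=
  (Finset.sum_Ico_consecutive F hab hbc).symm

/-- second part: the number of the points on the left side -/
theorem Cfg.lft_G (h : Cfg n M L x y) {i j : ℕ} (hij : i < j) (hj : j < n) (hM : M ≤ j) :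
    lft x y n i j = rk x j i + if rk x j i < L j then n - 1 - j else 0 := by
  have hlow : ∀ l < j, (0 < dt x y i j l ↔ x l < x i) := by
    intro l hl
    rcases lt_trichotomy l i with h1 | rfl | h1
    · have h2 := h.sG l i j h1 hij hj hM
      have e : dt x y i j l = dt x y l i j := by rw [dt_rot]
      rw [e]
      constructor
      · intro h3
        have := pos_of_mul_pos_left h2 h3.le
        linarith
      · intro h3
        exact pos_of_mul_pos_right h2 (by linarith)
    · rw [dt_self]
      simp
    · have h2 := h.sG i l j h1 hl hj hM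
      have e : dt x y i j l = -dt x y i l j := by rw [dt_swap']
      rw [e]
      constructor
      · intro h3
        by_contra h4
        have h5 : 0 ≤ x l - x i := by linarith
        nlinarith
      · intro h3
        by_contra h4
        have h5 : 0 ≤ dt x y i l j := by linarith
        nlinarith
  have hhigh : ∀ l, j < l → l < n → (0 < dt x y i j l ↔ x i < x j) := by
    intro l h1 h3
    have h2 := h.sG i j l hij h1 h3 (by omega)
    constructor
    · intro h4
      have := pos_of_mul_pos_left h2 h4.le
      linarith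
    · intro h4
      exact pos_of_mul_pos_right h2 (by linarith)
  have hrk : (x i < x j ↔ rk x j i < L j) := by
    rw [lt_iff_rk hij (fun l hl => h.ne l (by omega) j hj hl.ne), h.rG j hj hM]
  unfold lft
  rw [Finset.card_filter, Finset.range_eq_Ico, sum_split _ (Nat.zero_le j) hj.le,
    sum_split _ (Nat.le_succ j) hj]
  congr 1
  · unfold rk
    rw [Finset.card_filter, Finset.range_eq_Ico]
    apply Finset.sum_congr rfl
    intro l hl
    rw [Finset.mem_Ico] at hl
    rw [if_congr (hlow l hl.2) rfl rfl]
  · have e1 : ∑ l ∈ Ico j j.succ, (if 0 < dt x y i j l then 1 else 0) = 0 := by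
      rw [Nat.Ico_succ_singleton, Finset.sum_singleton, dt_self', if_neg (lt_irrefl _)]
    rw [e1, zero_add]
    rw [Finset.sum_congr rfl (g := fun _ => if rk x j i < L j then 1 else 0)]
    · rw [Finset.sum_const, Nat.card_Ico, smul_eq_mul]
      split_ifs
      · rw [mul_one]
        omega
      · rw [mul_zero]
    · intro l hl
      rw [Finset.mem_Ico] at hl
      rw [if_congr ((hhigh l hl.1 hl.2).trans hrk) rfl rfl]

/-- first part: the number of the points on the left side -/
theorem Cfg.lft_T (h : Cfg n M L x y) {i j : ℕ} (hij : i < j) (hj : j < M) (hMn : M ≤ n) :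
    lft x y n i j = rk y j i + if rk y j i < L j then M - 1 - j else 0 := by
  have hlow : ∀ l < j, (0 < dt x y i j l ↔ y l < y i) := by
    intro l hl
    rcases lt_trichotomy l i with h1 | rfl | h1
    · have h2 := h.sT l i j h1 hij hj
      have e : dt x y i j l = dt x y l i j := by rw [dt_rot]
      rw [e]
      constructor
      · intro h3
        have := pos_of_mul_pos_left h2 h3.le
        linarith
      · intro h3
        exact pos_of_mul_pos_right h2 (by linarith)
    · rw [dt_self]
      simp
    · have h2 := h.sT i l j h1 hl hj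
      have e : dt x y i j l = -dt x y i l j := by rw [dt_swap']
      rw [e]
      constructor
      · intro h3
        by_contra h4
        have h5 : 0 ≤ y l - y i := by linarith
        nlinarith
      · intro h3
        by_contra h4
        have h5 : 0 ≤ dt x y i l j := by linarith
        nlinarith
  have hmid : ∀ l, j < l → l < M → (0 < dt x y i j l ↔ y i < y j) := by
    intro l h1 h3
    have h2 := h.sT i j l hij h1 h3
    constructor
    · intro h4
      have := pos_of_mul_pos_left h2 h4.le
      linarith
    · intro h4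
      exact pos_of_mul_pos_right h2 (by linarith)
  have hhigh : ∀ l, M ≤ l → l < n → ¬ 0 < dt x y i j l := by
    intro l h1 h3 h4
    have h2 := h.sG i j l hij (by omega) h3 h1
    have h5 := h.xT i j hij hj
    nlinarith
  have hrk : (y i < y j ↔ rk y j i < L j) := by
    rw [lt_iff_rk hij (fun l hl => h.neT l (by omega) j hj hl.ne), h.rT j hj]
  unfold lft
  rw [Finset.card_filter, Finset.range_eq_Ico, sum_split _ (Nat.zero_le j) (by omega : j ≤ n),
    sum_split _ (Nat.le_succ j) (by omega : j.succ ≤ n), sum_split _ (by omega : j.succ ≤ M) hMn]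
  congr 1
  · unfold rk
    rw [Finset.card_filter, Finset.range_eq_Ico]
    apply Finset.sum_congr rfl
    intro l hl
    rw [Finset.mem_Ico] at hl
    rw [if_congr (hlow l hl.2) rfl rfl]
  · have e1 : ∑ l ∈ Ico j j.succ, (if 0 < dt x y i j l then 1 else 0) = 0 := by
      rw [Nat.Ico_succ_singleton, Finset.sum_singleton, dt_self', if_neg (lt_irrefl _)]
    have e2 : ∑ l ∈ Ico M n, (if 0 < dt x y i j l then 1 else 0) = 0 := by
      apply Finset.sum_eq_zero
      intro l hl
      rw [Finset.mem_Ico] at hl
      rw [if_neg (hhigh l hl.1 hl.2)]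
    rw [e1, e2, zero_add, add_zero]
    rw [Finset.sum_congr rfl (g := fun _ => if rk y j i < L j then 1 else 0)]
    · rw [Finset.sum_const, Nat.card_Ico, smul_eq_mul]
      split_ifs
      · rw [mul_one]
        omega
      · rw [mul_zero]
    · intro l hl
      rw [Finset.mem_Ico] at hl
      rw [if_congr ((hmid l hl.1 hl.2).trans hrk) rfl rfl]

/-- the two sides of a line -/
theorem Cfg.lft_add (h : Cfg n M L x y) {i j : ℕ} (hi : i < n) (hj : j < n) (hij : i ≠ j) :
    lft x y n i j + lft x y n j i + 2 = n := by
  unfold lft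
  have h1 : (range n).filter (fun l => 0 < dt x y i j l) ∪ (range n).filter (fun l => 0 < dt x y j i l) ∪ {i, j} = range n := by
    ext l
    simp only [Finset.mem_union, Finset.mem_filter, Finset.mem_insert, Finset.mem_singleton, Finset.mem_range]
    constructor
    · rintro ((h1 | h1) | (rfl | rfl))
      · exact h1.1
      · exact h1.1
      · exact hi
      · exact hj
    · intro hl
      by_cases h1 : l = i
      · exact Or.inr (Or.inl h1)
      by_cases h2 : l = j
      · exact Or.inr (Or.inr h2)
      left
      rcases lt_or_gt_of_ne (h.ne_zero hi hj hl hij (Ne.symm h1) (Ne.symm h2)) with h3 | h3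
      · right
        refine ⟨hl, ?_⟩
        rw [dt_swap]
        linarith
      · exact Or.inl ⟨hl, h3⟩
  have h2 : Disjoint ((range n).filter (fun l => 0 < dt x y i j l)) ((range n).filter (fun l => 0 < dt x y j i l)) := by
    rw [Finset.disjoint_left]
    intro l hl hl'
    rw [Finset.mem_filter] at hl hl'
    have h3 := hl'.2
    rw [dt_swap] at h3
    linarith [hl.2]
  have h3 : Disjoint ((range n).filter (fun l => 0 < dt x y i j l) ∪ (range n).filter (fun l => 0 < dt x y j i l)) {i, j} := by
    rw [Finset.disjoint_right]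
    intro l hl hl'
    rw [Finset.mem_insert, Finset.mem_singleton] at hl
    rw [Finset.mem_union, Finset.mem_filter, Finset.mem_filter] at hl'
    rcases hl with rfl | rfl
    · rcases hl' with h4 | h4
      · rw [dt_self] at h4
        exact lt_irrefl _ h4.2
      · rw [dt_self'] at h4
        exact lt_irrefl _ h4.2
    · rcases hl' with h4 | h4
      · rw [dt_self'] at h4
        exact lt_irrefl _ h4.2
      · rw [dt_self] at h4
        exact lt_irrefl _ h4.2
  have h4 := Finset.card_union_of_disjoint h3
  rw [Finset.card_union_of_disjoint h2, h1, Finset.card_range, Finset.card_pair hij] at h4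
  exact h4.symm

theorem cnt_aux (j L R w : ℕ) (hL : L ≤ j) :
    ((range j).filter fun r => (r + if r < L then R else 0) = w).card =
      (if R ≤ w ∧ w < R + L then 1 else 0) + (if L ≤ w ∧ w < j then 1 else 0) := by
  rw [Finset.card_filter, Finset.range_eq_Ico, sum_split _ (Nat.zero_le L) hL]
  congr 1
  · rw [Finset.sum_congr rfl (g := fun r => if r = w - R then (if R ≤ w then 1 else 0) else 0)]
    · rw [Finset.sum_ite_eq']
      by_cases h : R ≤ w
      · by_cases h1 : w - R ∈ Ico 0 L
        · rw [if_pos h1, if_pos h, if_pos]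
          rw [Finset.mem_Ico] at h1
          omega
        · rw [if_neg h1, if_neg]
          rw [Finset.mem_Ico] at h1
          omega
      · rw [if_neg h, ite_self, if_neg]
        omega
    · intro r hr
      rw [Finset.mem_Ico] at hr
      rw [if_pos hr.2]
      by_cases h : r = w - R
      · rw [if_pos h]
        by_cases h1 : R ≤ w
        · rw [if_pos h1, if_pos]
          omega
        · rw [if_neg h1, if_neg]
          omega
      · rw [if_neg h, if_neg]
        omega
  · rw [Finset.sum_congr rfl (g := fun r => if r = w then 1 else 0)]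
    · rw [Finset.sum_ite_eq']
      by_cases h1 : w ∈ Ico L j
      · rw [if_pos h1, if_pos]
        rwa [Finset.mem_Ico] at h1
      · rw [if_neg h1, if_neg]
        rwa [Finset.mem_Ico] at h1
    · intro r hr
      rw [Finset.mem_Ico] at hr
      rw [if_neg (not_lt.2 hr.1), add_zero]

/-- the number of the `i < j` with `w` points on the left side of `i → j` -/
def cw (n M : ℕ) (L : ℕ → ℕ) (j w : ℕ) : ℕ :=
  (if (if j < M then M - 1 - j else n - 1 - j) ≤ w ∧ w < (if j < M then M - 1 - j else n - 1 - j) + L j then 1 else 0) +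
    (if L j ≤ w ∧ w < j then 1 else 0)

theorem Cfg.cnt (h : Cfg n M L x y) (hMn : M ≤ n) (hL : ∀ b < n, L b ≤ b) {j : ℕ} (hj : j < n) (w : ℕ) :
    ((range j).filter fun i => lft x y n i j = w).card = cw n M L j w := by
  unfold cw
  rw [← cnt_aux j (L j) _ w (hL j hj)]
  rcases Nat.lt_or_ge j M with h1 | h1
  · rw [if_pos h1, ← card_rk (f := y) (j := j) (fun a ha b hb hab => h.neT a (by omega) b (by omega) hab)
      (fun r => (r + if r < L j then M - 1 - j else 0) = w)]
    congr 1
    apply Finset.filter_congr
    intro i hi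
    rw [h.lft_T (Finset.mem_range.1 hi) h1 hMn]
  · rw [if_neg (not_lt.2 h1), ← card_rk (f := x) (j := j) (fun a ha b hb hab => h.ne a (by omega) b (by omega) hab)
      (fun r => (r + if r < L j then n - 1 - j else 0) = w)]
    congr 1
    apply Finset.filter_congr
    intro i hi
    rw [h.lft_G (Finset.mem_range.1 hi) hj h1]

theorem Cfg.cnt' (h : Cfg n M L x y) (hMn : M ≤ n) (hL : ∀ b < n, L b ≤ b) {j : ℕ} (hj : j < n) (v : ℕ) (hv : v + 2 ≤ n) :
    ((range j).filter fun i => lft x y n j i = v).card = cw n M L j (n - 2 - v) := by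
  rw [← h.cnt hMn hL hj]
  congr 1
  apply Finset.filter_congr
  intro i hi
  rw [Finset.mem_range] at hi
  have := h.lft_add (hi.trans hj) hj hi.ne
  omega

theorem sum_square (F : ℕ → ℕ → ℕ) (n : ℕ) :
    ∑ p ∈ range n, ∑ q ∈ range n, F p q = ∑ j ∈ range n, (F j j + ∑ i ∈ range j, (F i j + F j i)) := by
  induction n with
  | zero => simp
  | succ n ih =>
    rw [Finset.sum_range_succ (fun j => F j j + _), ← ih, Finset.sum_range_succ]
    have e1 : ∑ p ∈ range n, ∑ q ∈ range (n + 1), F p q = ∑ p ∈ range n, ∑ q ∈ range n, F p q + ∑ p ∈ range n, F p n := by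
      rw [← Finset.sum_add_distrib]
      apply Finset.sum_congr rfl
      intro p _
      rw [Finset.sum_range_succ]
    rw [e1, Finset.sum_range_succ, Finset.sum_add_distrib]
    ring

/-- the number of the ordered pairs with `v` points on the left side -/
noncomputable def dpc (x y : ℕ → ℝ) (n v : ℕ) : ℕ :=
  ∑ p ∈ range n, ∑ q ∈ range n, if p ≠ q ∧ lft x y n p q = v then 1 else 0

theorem Cfg.dpc_eq (h : Cfg n M L x y) (hMn : M ≤ n) (hL : ∀ b < n, L b ≤ b) (v : ℕ) (hv : v + 2 ≤ n) :
    dpc x y n v = ∑ j ∈ range n, (cw n M L j v + cw n M L j (n - 2 - v)) := by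
  unfold dpc
  rw [sum_square]
  apply Finset.sum_congr rfl
  intro j hj
  rw [Finset.mem_range] at hj
  rw [if_neg (by simp), zero_add, Finset.sum_add_distrib, ← h.cnt hMn hL hj v, ← h.cnt' hMn hL hj v hv,
    Finset.card_filter, Finset.card_filter]
  congr 1
  · apply Finset.sum_congr rfl
    intro i hi
    rw [Finset.mem_range] at hi
    exact if_congr ⟨fun h => h.2, fun h => ⟨hi.ne, h⟩⟩ rfl rfl
  · apply Finset.sum_congr rfl
    intro i hi
    rw [Finset.mem_range] at hi
    exact if_congr ⟨fun h => h.2, fun h => ⟨hi.ne', h⟩⟩ rfl rfl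

end Pool.Agent.RIS
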