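import Pool.Agent.MP_c130bd_co.RIS.Vert

/-!
# Initial segments of Radon vectors (MP_c130bd_co): `s = d + 4`, the final theorem
-/

set_option autoImplicit false

namespace Pool.Agent.RIS

open Finset Pool.Agent.RVM

section

variable {n N D M : ℕ} {L : ℕ → ℕ} {x y : ℕ → ℝ} {z : ℝ × ℝ} {θ : ℕ → ℝ}

open Classical in
theorem verts (hn : 3 * D ≤ n) (hx : ∀ a < n, ∀ b < n, a ≠ b → x a ≠ x b) (hθ : ∀ i t, i < t → t < 2 * N → θ i < θ t)
    (hdeep : ∀ t < 2 * N, Deep D x y (arc z (θ t))) (Y : Finset (Fin n ⊕ Fin (2 * N)) → Fin 3 → ℝ)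
    (hY : ∀ X : Finset (Fin n ⊕ Fin (2 * N)), X.card + 1 = 3 → ∀ j, GV n N x y z θ j ⬝ᵥ Y X = 0 ↔ j ∈ X)
    (d : ℕ) (hd : d + 4 = n + 2 * N) (hlr : ∀ a b : Fin n, a ≠ b →
      (univ.filter fun l : Fin n => 0 < dt (fun a : Fin n => x a) (fun a : Fin n => y a) a b l).card +
      (univ.filter fun l : Fin n => 0 < dt (fun a : Fin n => x a) (fun a : Fin n => y a) b a l).card + 2 = n) (i : ℕ) (hi : i + 1 < D + N) :
    (univ.filter fun X : Finset (Fin n ⊕ Fin (2 * N)) => X.card + 1 = 3 ∧
        ((univ.filter fun j => 0 < GV n N x y z θ j ⬝ᵥ Y X).card = i ∨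
          (univ.filter fun j => 0 < GV n N x y z θ j ⬝ᵥ Y X).card + i = d + 2)).card =
      (univ.filter fun r : Fin n × Fin n => r.1 ≠ r.2 ∧
        (univ.filter fun l : Fin n => 0 < dt (fun a : Fin n => x a) (fun a : Fin n => y a) r.1 r.2 l).card + N = i).card := by
  symm
  apply Finset.card_bij (fun r _ => ({Sum.inl r.1, Sum.inl r.2} : Finset (Fin n ⊕ Fin (2 * N))))
  · rintro ⟨a, b⟩ hr
    rw [Finset.mem_filter] at hr
    obtain ⟨-, hab, hv⟩ := hr
    simp only at hab hv
    have hX : ({Sum.inl a, Sum.inl b} : Finset (Fin n ⊕ Fin (2 * N))).card = 2 :=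
      Finset.card_pair (fun h => hab (Sum.inl_injective h))
    have hU := hY {Sum.inl a, Sum.inl b} (by rw [hX])
    have hU0 : Y {Sum.inl a, Sum.inl b} ≠ 0 := by
      intro h0
      have h1 : (univ : Finset (Fin n ⊕ Fin (2 * N))) ⊆ {Sum.inl a, Sum.inl b} := by
        intro j _
        rw [← hU j, h0, dotProduct_zero]
      have h2 := Finset.card_le_card h1
      rw [Finset.card_univ, Fintype.card_sum, Fintype.card_fin, Fintype.card_fin, hX] at h2
      omega
    have h1 := vert_conv hn hθ hdeep (hx a a.2 b b.2 (fun h => hab (Fin.ext h))) hU hU0 _ (by omega) rfl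
    have h2 := pos_add (Y {Sum.inl a, Sum.inl b}) _ hX hU
    rw [Finset.mem_filter]
    refine ⟨Finset.mem_univ _, by rw [hX], ?_⟩
    change pos n N x y z θ (Y {Sum.inl a, Sum.inl b}) = i ∨ pos n N x y z θ (Y {Sum.inl a, Sum.inl b}) + i = d + 2
    omega
  · rintro ⟨a, b⟩ hr ⟨a', b'⟩ hr' h
    rw [Finset.mem_filter] at hr hr'
    obtain ⟨-, hab, hv⟩ := hr
    obtain ⟨-, hab', hv'⟩ := hr'
    simp only at hab hv hab' hv' h
    have ha : Sum.inl a ∈ ({Sum.inl a', Sum.inl b'} : Finset (Fin n ⊕ Fin (2 * N))) := by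
      rw [← h]
      simp
    have hb : Sum.inl b ∈ ({Sum.inl a', Sum.inl b'} : Finset (Fin n ⊕ Fin (2 * N))) := by
      rw [← h]
      simp
    simp only [Finset.mem_insert, Finset.mem_singleton, Sum.inl.injEq] at ha hb
    rcases ha with rfl | rfl
    · rcases hb with rfl | rfl
      · exact absurd rfl hab
      · rfl
    · rcases hb with rfl | rfl
      · exfalso
        have := hlr _ _ hab
        omega
      · exact absurd rfl hab
  · intro X hX
    rw [Finset.mem_filter] at hX
    obtain ⟨-, hX3, hX1⟩ := hX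
    have hX2 : X.card = 2 := by omega
    have hU := hY X hX3
    have h2 := pos_add (Y X) X hX2 hU
    change pos n N x y z θ _ = i ∨ pos n N x y z θ _ + i = d + 2 at hX1
    rcases hX1 with h1 | h1
    · obtain ⟨a, b, hab, hXe, hc⟩ := vert_small hn hx hθ hdeep hX2 hU (by omega)
      refine ⟨(a, b), ?_, hXe.symm⟩
      rw [Finset.mem_filter]
      exact ⟨Finset.mem_univ _, hab, by rw [hc, h1]⟩
    · have hU' : ∀ j, GV n N x y z θ j ⬝ᵥ (-Y X) = 0 ↔ j ∈ X := by
        intro j
        rw [dotProduct_neg, neg_eq_zero]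
        exact hU j
      obtain ⟨a, b, hab, hXe, hc⟩ := vert_small hn hx hθ hdeep hX2 hU' (by omega)
      refine ⟨(a, b), ?_, hXe.symm⟩
      rw [Finset.mem_filter]
      exact ⟨Finset.mem_univ _, hab, by simp only; omega⟩

/-- the weights: the vectors are totally cyclic -/
theorem weights (hD : 0 < D) (hN : 0 < N) (hn : 3 * D ≤ n) (hdeep : ∀ t < 2 * N, Deep D x y (arc z (θ t))) :
    ∃ c : Fin n ⊕ Fin (2 * N) → ℝ, (∀ j, 0 < c j) ∧ ∑ j, c j • GV n N x y z θ j = 0 := by
  classical
  -- coefficients with respect to the first triangle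
  set a : ℕ := D with ha
  set b : ℕ := 0 with hb
  set g : ℕ := 2 * D with hg
  have hdp : ∀ t < 2 * N, 0 < dt x y a b g ∧ 0 < dq x y a b (arc z (θ t)) ∧ 0 < dq x y b g (arc z (θ t)) ∧
      0 < dq x y g a (arc z (θ t)) := by
    intro t ht
    have := hdeep t ht 0 hD
    simpa using this
  have hΔ : 0 < dt x y a b g := (hdp 0 (by omega)).1
  -- a functional on the homogeneous coordinates
  let hd : ℕ → ℕ → (Fin 3 → ℝ) → ℝ := fun p q u => u 0 * (x p * y q - y p * x q) + u 1 * (y p - y q) + u 2 * (x q - x p)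
  have hd_q : ∀ p q (w : ℝ × ℝ), hd p q ![1, w.1, w.2] = dq x y p q w := by
    intro p q w
    simp only [hd, dq]
    simp
    ring
  -- the sum over the arc with the weights `1` and `K`
  let wt : ℝ → ℕ → ℝ := fun K t => if Odd t then K else 1
  let u : ℝ → Fin 3 → ℝ := fun K => ∑ t : Fin (2 * N), (-((-1) ^ (t : ℕ) * wt K t)) • ![1, (arc z (θ t)).1, (arc z (θ t)).2]
  have hd_u : ∀ p q K, hd p q (u K) = ∑ t : Fin (2 * N), (-((-1) ^ (t : ℕ) * wt K t)) * dq x y p q (arc z (θ t)) := by
    intro p q K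
    have : ∀ i, u K i = ∑ t : Fin (2 * N), (-((-1) ^ (t : ℕ) * wt K t)) * (![1, (arc z (θ t)).1, (arc z (θ t)).2] : Fin 3 → ℝ) i := by
      intro i
      simp only [u, Finset.sum_apply, Pi.smul_apply, smul_eq_mul]
    simp only [hd, this]
    rw [Finset.sum_mul, Finset.sum_mul, Finset.sum_mul, ← Finset.sum_add_distrib, ← Finset.sum_add_distrib]
    apply Finset.sum_congr rfl
    intro t _
    rw [← hd_q]
    simp only [hd]
    ring
  have hlarge : ∀ p q, (∀ t < 2 * N, 0 < dq x y p q (arc z (θ t))) → ∀ᶠ K in Filter.atTop, 0 < hd p q (u K) := by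
    intro p q hpq
    set S1 : ℝ := ∑ t : Fin (2 * N), (if Odd (t : ℕ) then dq x y p q (arc z (θ t)) else 0) with hS1
    set S0 : ℝ := ∑ t : Fin (2 * N), (if Odd (t : ℕ) then 0 else dq x y p q (arc z (θ t))) with hS0
    have h1 : ∀ K, hd p q (u K) = K * S1 - S0 := by
      intro K
      rw [hd_u, hS1, hS0, Finset.mul_sum, ← Finset.sum_sub_distrib]
      apply Finset.sum_congr rfl
      intro t _
      simp only [wt]
      rcases Nat.even_or_odd (t : ℕ) with h | h
      · rw [h.neg_one_pow, if_neg (Nat.not_odd_iff_even.2 h), if_neg (Nat.not_odd_iff_even.2 h), if_neg (Nat.not_odd_iff_even.2 h)]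
        ring
      · rw [h.neg_one_pow, if_pos h, if_pos h, if_pos h]
        ring
    have h2 : 0 < S1 := by
      apply Finset.sum_pos'
      · intro t _
        split_ifs
        · exact (hpq t t.2).le
        · exact le_rfl
      · refine ⟨⟨1, by omega⟩, Finset.mem_univ _, ?_⟩
        rw [if_pos (by exact ⟨0, rfl⟩)]
        exact hpq _ (by show 1 < 2 * N; omega)
    filter_upwards [Filter.eventually_gt_atTop (S0 / S1)] with K hK
    rw [h1]
    rw [div_lt_iff₀ h2] at hK
    linarith
  obtain ⟨K, hK0, hK1, hK2, hK3⟩ := ((Filter.eventually_gt_atTop (0 : ℝ)).and ((hlarge b g (fun t ht => (hdp t ht).2.2.1)).and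
    ((hlarge g a (fun t ht => (hdp t ht).2.2.2)).and (hlarge a b (fun t ht => (hdp t ht).2.1))))).exists
  -- subtract a small multiple of the sum of the vectors of the plane
  let sv : Fin 3 → ℝ := ∑ i : Fin n, ![1, x i, y i]
  have hd_lin : ∀ p q (v w : Fin 3 → ℝ) (ε : ℝ), hd p q (v - ε • w) = hd p q v - ε * hd p q w := by
    intro p q v w ε
    simp only [hd, Pi.sub_apply, Pi.smul_apply, smul_eq_mul]
    ring
  have hsmall : ∀ p q, 0 < hd p q (u K) → ∀ᶠ ε in nhdsWithin (0 : ℝ) (Set.Ioi 0), 0 < hd p q (u K - ε • sv) := by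
    intro p q hpq
    have h4 : Filter.Tendsto (fun ε : ℝ => hd p q (u K) - ε * hd p q sv) (nhdsWithin 0 (Set.Ioi 0)) (nhds (hd p q (u K))) := by
      have : Filter.Tendsto (fun ε : ℝ => hd p q (u K) - ε * hd p q sv) (nhds 0) (nhds (hd p q (u K) - 0 * hd p q sv)) :=
        (tendsto_const_nhds).sub (Filter.Tendsto.mul_const _ Filter.tendsto_id)
      rw [zero_mul, sub_zero] at this
      exact this.mono_left nhdsWithin_le_nhds
    filter_upwards [h4.eventually (lt_mem_nhds hpq)] with ε h5
    rw [hd_lin]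
    exact h5
  obtain ⟨ε, hε1, hε2, hε3, hε0⟩ := ((hsmall b g hK1).and ((hsmall g a hK2).and ((hsmall a b hK3).and self_mem_nhdsWithin))).exists
  have hε0 : 0 < ε := hε0
  have hlam : ∀ i : ℕ, 0 < ε + ((if i = a then hd b g (u K - ε • sv) else 0) + (if i = b then hd g a (u K - ε • sv) else 0) +
      (if i = g then hd a b (u K - ε • sv) else 0)) / dt x y a b g := by
    intro i
    have : 0 ≤ ((if i = a then hd b g (u K - ε • sv) else 0) + (if i = b then hd g a (u K - ε • sv) else 0) +
      (if i = g then hd a b (u K - ε • sv) else 0)) / dt x y a b g := by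
      apply div_nonneg _ hΔ.le
      apply add_nonneg (add_nonneg _ _) _
      · split_ifs
        · exact hε1.le
        · exact le_rfl
      · split_ifs
        · exact hε2.le
        · exact le_rfl
      · split_ifs
        · exact hε3.le
        · exact le_rfl
    linarith
  refine ⟨Sum.elim (fun i : Fin n => ε + ((if (i : ℕ) = a then hd b g (u K - ε • sv) else 0) +
      (if (i : ℕ) = b then hd g a (u K - ε • sv) else 0) +
      (if (i : ℕ) = g then hd a b (u K - ε • sv) else 0)) / dt x y a b g) (fun t => wt K t), ?_, ?_⟩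
  · intro j
    rcases j with i | t
    · exact hlam i
    · show 0 < wt K t
      simp only [wt]
      split_ifs
      · exact hK0
      · exact one_pos
  · rw [Fintype.sum_sum_type]
    simp only [Sum.elim_inl, Sum.elim_inr]
    have e1 : ∑ t : Fin (2 * N), wt K t • GV n N x y z θ (Sum.inr t) = -u K := by
      simp only [u]
      rw [← Finset.sum_neg_distrib]
      apply Finset.sum_congr rfl
      intro t _
      have : GV n N x y z θ (Sum.inr t) = (-1 : ℝ) ^ (t : ℕ) • ![1, (arc z (θ t)).1, (arc z (θ t)).2] := rfl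
      rw [this, smul_smul, ← neg_smul]
      congr 1
      ring
    have e2 : ∀ i : Fin n, GV n N x y z θ (Sum.inl i) = ![1, x i, y i] := by
      intro i
      have : GV n N x y z θ (Sum.inl i) = (1 : ℝ) • ![1, x i, y i] := rfl
      rw [this, one_smul]
    set u' : Fin 3 → ℝ := u K - ε • sv with hu'
    have e3 : ∑ i : Fin n, (ε + ((if (i : ℕ) = a then hd b g u' else 0) + (if (i : ℕ) = b then hd g a u' else 0) +
        (if (i : ℕ) = g then hd a b u' else 0)) / dt x y a b g) • GV n N x y z θ (Sum.inl i) =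
        ε • sv + (dt x y a b g)⁻¹ • (hd b g u' • ![1, x a, y a] + hd g a u' • ![1, x b, y b] + hd a b u' • ![1, x g, y g]) := by
      have h1 : ∀ (p : ℕ) (hp : p < n) (r : ℝ), ∑ i : Fin n, (if (i : ℕ) = p then r else 0) • (![1, x i, y i] : Fin 3 → ℝ) =
          r • ![1, x p, y p] := by
        intro p hp r
        rw [Finset.sum_eq_single_of_mem (⟨p, hp⟩ : Fin n) (Finset.mem_univ _)]
        · rw [if_pos rfl]
        · intro i _ hi
          rw [if_neg (fun h => hi (Fin.ext h)), zero_smul]
      rw [← h1 a (by omega), ← h1 b (by omega), ← h1 g (by omega)]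
      simp only [sv]
      rw [Finset.smul_sum, ← Finset.sum_add_distrib, ← Finset.sum_add_distrib, Finset.smul_sum, ← Finset.sum_add_distrib]
      apply Finset.sum_congr rfl
      intro i _
      rw [e2, ← add_smul, ← add_smul, smul_smul, ← add_smul]
      congr 1
      ring
    have e4 : hd b g u' • (![1, x a, y a] : Fin 3 → ℝ) + hd g a u' • ![1, x b, y b] + hd a b u' • ![1, x g, y g] =
        dt x y a b g • u' := by
      funext i
      simp only [hd, Pi.add_apply, Pi.smul_apply, smul_eq_mul]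
      unfold dt
      fin_cases i
      · simp
        ring
      · simp
        ring
      · simp
        ring
    rw [e1, e3, e4, smul_smul, inv_mul_cancel₀ hΔ.ne', one_smul, hu']
    abel

end

/-- `s = d + 4`: initial segments of both vectors. -/
theorem main4 (d k J : ℕ) (hd : 1 ≤ d) (hw : 3 * (J + 3) + 2 * k ≤ d + 2) (e : ℕ → ℕ) (hmono : ∀ j < J, e j ≤ e (j + 1))
    (htop : e J + 2 * k + 2 ≤ d) (hlow : ∀ j ≤ J, 3 * (j + 1) + ∑ t ∈ Ioc j J, max 2 (e t - e (t - 1)) ≤ e J) :
    ∃ S : Finset (E d), S.card = d + 4 ∧ GP S ∧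
      (∀ i, 1 ≤ i → i ≤ k → PP S i = 0 ∧ rr S i = 0) ∧ rr S (k + 1) = 1 ∧
      ∀ j ≤ J, PP S (k + 1 + j) = e j ∧ rr S (k + 2 + j) = e j := by
  classical
  obtain ⟨n, hn⟩ : ∃ n, d + 2 = n + 2 * k := ⟨d + 2 - 2 * k, by omega⟩
  set D := J + 3 with hD
  have hn3 : 3 * D ≤ n := by omega
  obtain ⟨L, hL, hL', hwin⟩ := exists_win n (2 * D) J (by omega) (by omega) e hmono (by omega) hlow
  obtain ⟨x, y, z, h, hz⟩ := exists_ghost n D hn3 L hL (fun m hm hm' => by
    have := hL' m hm hm'
    omega)
  obtain ⟨θ, hθ, hdeep, hgen⟩ := exists_arc h D hz (2 * (k + 1))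
  obtain ⟨c, hc, hsum⟩ := weights (N := k + 1) (by omega : 0 < D) (Nat.succ_pos k) hn3 hdeep
  obtain ⟨Y, hY⟩ := exists_normals (N := k + 1) hgen
  have hcard : Fintype.card (Fin n ⊕ Fin (2 * (k + 1))) = d + 3 + 1 := by
    rw [Fintype.card_sum, Fintype.card_fin, Fintype.card_fin]
    omega
  obtain ⟨S, hS1, hS2, hSP, hSR⟩ := gale2 hd (by norm_num) hcard (GV n (k + 1) x y z θ) c hc hsum Y hY
  have hP : ∀ i, i + 1 < D + (k + 1) → PP S i = (univ.filter fun r : Fin n × Fin n => r.1 ≠ r.2 ∧
        (univ.filter fun l : Fin n => 0 < dt (fun a : Fin n => x a) (fun a : Fin n => y a) r.1 r.2 l).card + (k + 1) = i).card := by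
    intro i hi
    rw [hSP i]
    have := verts (N := k + 1) hn3 h.ne hθ hdeep Y hY d (by omega) (by
      intro a b hab
      rw [lft_fin, lft_fin]
      exact h.lft_add a.2 b.2 (fun h => hab (Fin.ext h))) i hi
    convert this
  have hR : ∀ i, i + 1 < D + (k + 1) → rr S i = (univ.filter fun B : Finset (Fin n) => B.card + (k + 1) = i ∧
      SepP (fun a : Fin n => x a) (fun a : Fin n => y a) B).card := by
    intro i hi
    rw [hSR i (by omega), ← cells (N := k + 1) (by omega : 0 < D) hn3 hθ hdeep i hi]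
  have hE : ∀ v ≤ J, (univ.filter fun A : Finset (Fin n) => A.card = v + 1 ∧
      SepP (fun a : Fin n => x a) (fun a : Fin n => y a) A).card = e v := by
    intro v hv
    rw [h.sep_count (by omega) hL v (by omega), hwin v hv]
  refine ⟨S, by rw [hS1], hS2, ?_, ?_, ?_⟩
  · intro i _ hi
    rw [hP i (by omega), hR i (by omega)]
    constructor
    · rw [Finset.card_eq_zero, Finset.filter_eq_empty_iff]
      rintro r - ⟨-, h1⟩
      omega
    · rw [Finset.card_eq_zero, Finset.filter_eq_empty_iff]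
      rintro B - ⟨h1, -⟩
      omega
  · rw [hR (k + 1) (by omega), Finset.card_eq_one]
    refine ⟨∅, ?_⟩
    ext B
    rw [Finset.mem_filter, Finset.mem_singleton]
    constructor
    · rintro ⟨-, h1, -⟩
      rw [← Finset.card_eq_zero]
      omega
    · rintro rfl
      refine ⟨Finset.mem_univ _, by rw [Finset.card_empty, zero_add], 0, 0, -1, fun j => ?_⟩
      constructor
      · intro h
        exact absurd h (Finset.notMem_empty j)
      · intro _
        norm_num
  · intro j hj
    rw [hP _ (by omega), hR _ (by omega), ← hE j hj]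
    constructor
    · rw [kset _ h.ne_fin j (by rw [Fintype.card_fin]; omega)]
      · congr 1
        apply Finset.filter_congr
        intro r _
        apply and_congr_right
        intro _
        omega
      · intro a b hab
        exact h.ne a a.2 b b.2 (fun h => hab (Fin.ext h))
    · congr 1
      apply Finset.filter_congr
      intro B _
      apply and_congr_left
      intro _
      omega

end Pool.Agent.RIS
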