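import Pool.Agent.MP_c130bd_co.RVG.GAL
import Pool.Agent.MP_c130bd_co.RIS.Alt

/-!
# Initial segments of Radon vectors (MP_c130bd_co): both vectors of a point set from its Gale vectors
-/

set_option autoImplicit false

namespace Pool.Agent.RIS

open Finset Pool.Agent.RVM Pool.Agent.RVG

/-- prescribed products with `m` or fewer vectors in general position -/
theorem solve {ι : Type} [Fintype ι] [DecidableEq ι] {m : ℕ} (hm : 1 ≤ m)
    (hι : m ≤ Fintype.card ι) (V : ι → Fin m → ℝ) (Y : Finset ι → Fin m → ℝ)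
    (hY : ∀ X : Finset ι, X.card + 1 = m → ∀ j, V j ⬝ᵥ Y X = 0 ↔ j ∈ X) (Z : Finset ι) (hZ : Z.card ≤ m)
    (τ : ι → ℝ) : ∃ U : Fin m → ℝ, ∀ j ∈ Z, V j ⬝ᵥ U = τ j := by
  have hex : ∀ j ∈ Z, ∃ X : Finset ι, Z.erase j ⊆ X ∧ j ∉ X ∧ X.card + 1 = m := by
    intro j hj
    have hsub : Z.erase j ⊆ univ.erase j := Finset.erase_subset_erase _ (subset_univ _)
    have h1 : (Z.erase j).card ≤ m - 1 := by
      rw [card_erase_of_mem hj]
      omega
    have h2 : m - 1 ≤ (univ.erase j : Finset ι).card := by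
      rw [card_erase_of_mem (mem_univ _), card_univ]
      omega
    obtain ⟨X, hX1, hX2, hX3⟩ := Finset.exists_subsuperset_card_eq hsub h1 h2
    exact ⟨X, hX1, fun h => (mem_erase.1 (hX2 h)).1 rfl, by omega⟩
  choose! X hX1 hX2 hX3 using hex
  refine ⟨∑ i ∈ Z, (τ i / (V i ⬝ᵥ Y (X i))) • Y (X i), fun j hj => ?_⟩
  rw [dotProduct_sum, Finset.sum_eq_single_of_mem j hj]
  · rw [dotProduct_smul, smul_eq_mul, div_mul_cancel₀]
    intro h0
    exact hX2 j hj ((hY (X j) (hX3 j hj) j).1 h0)
  · intro i hi hij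
    rw [dotProduct_smul, (hY (X i) (hX3 i hi) j).2 (hX1 i hi (mem_erase.2 ⟨hij.symm, hj⟩)), smul_zero]

/-- a nonzero vector is orthogonal to fewer than `m` of the vectors -/
theorem zeros_lt {ι : Type} [Fintype ι] [DecidableEq ι] {m : ℕ} (hm : 1 ≤ m)
    (hι : m ≤ Fintype.card ι) (V : ι → Fin m → ℝ) (Y : Finset ι → Fin m → ℝ)
    (hY : ∀ X : Finset ι, X.card + 1 = m → ∀ j, V j ⬝ᵥ Y X = 0 ↔ j ∈ X) (U : Fin m → ℝ) (hU : U ≠ 0) (Z : Finset ι)
    (hZ : ∀ j ∈ Z, V j ⬝ᵥ U = 0) : Z.card < m := by
  by_contra hcon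
  push Not at hcon
  obtain ⟨Z', hZ1, hZ2⟩ := Finset.exists_subset_card_eq hcon
  let ev : (Fin m → ℝ) →ₗ[ℝ] (Z' → ℝ) :=
    { toFun := fun W j => V j ⬝ᵥ W
      map_add' := by
        intro W W'
        funext j
        rw [Pi.add_apply, dotProduct_add]
      map_smul' := by
        intro r W
        funext j
        rw [Pi.smul_apply, dotProduct_smul, RingHom.id_apply] }
  have hsurj : Function.Surjective ev := by
    intro τ
    obtain ⟨W, hW⟩ := solve hm hι V Y hY Z' hZ2.le (fun j => if h : j ∈ Z' then τ ⟨j, h⟩ else 0)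
    refine ⟨W, ?_⟩
    funext j
    show V j ⬝ᵥ W = τ j
    rw [hW j j.2, dif_pos j.2]
  have hfin : Module.finrank ℝ (Fin m → ℝ) = Module.finrank ℝ (Z' → ℝ) := by
    rw [Module.finrank_fin_fun, Module.finrank_fintype_fun_eq_card, Fintype.card_coe, hZ2]
  have hinj := (LinearMap.injective_iff_surjective_of_finrank_eq_finrank hfin).2 hsurj
  apply hU
  apply hinj
  rw [map_zero]
  funext j
  exact hZ j (hZ1 j.2)

/-- a nonzero vector with weak inequalities gives a cell -/
theorem cell_of_weak {ι : Type} [Fintype ι] [DecidableEq ι] {m : ℕ} (hm : 1 ≤ m)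
    (hι : m ≤ Fintype.card ι) (V : ι → Fin m → ℝ) (Y : Finset ι → Fin m → ℝ)
    (hY : ∀ X : Finset ι, X.card + 1 = m → ∀ j, V j ⬝ᵥ Y X = 0 ↔ j ∈ X) (U : Fin m → ℝ) (hU : U ≠ 0) (A : Finset ι)
    (hA : ∀ j, (j ∈ A → 0 ≤ V j ⬝ᵥ U) ∧ (j ∉ A → V j ⬝ᵥ U ≤ 0)) : Cell V A := by
  classical
  set Z : Finset ι := univ.filter fun j => V j ⬝ᵥ U = 0 with hZ
  have hZc : Z.card < m := zeros_lt hm hι V Y hY U hU Z (fun j hj => (Finset.mem_filter.1 hj).2)
  obtain ⟨W, hW⟩ := solve hm hι V Y hY Z hZc.le (fun j => if j ∈ A then 1 else -1)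
  have hev : ∀ᶠ ε in nhdsWithin (0 : ℝ) (Set.Ioi 0), ∀ l : ι, l ∉ Z → ε * |V l ⬝ᵥ W| < |V l ⬝ᵥ U| := by
    rw [Filter.eventually_all]
    intro l
    by_cases h1 : l ∈ Z
    · exact Filter.Eventually.of_forall fun _ h => absurd h1 h
    have h3 : 0 < |V l ⬝ᵥ U| := abs_pos.2 (fun h => h1 (Finset.mem_filter.2 ⟨Finset.mem_univ l, h⟩))
    have h4 : Filter.Tendsto (fun ε : ℝ => ε * |V l ⬝ᵥ W|) (nhdsWithin 0 (Set.Ioi 0)) (nhds 0) := by
      have : Filter.Tendsto (fun ε : ℝ => ε * |V l ⬝ᵥ W|) (nhds 0) (nhds (0 * |V l ⬝ᵥ W|)) :=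
        Filter.Tendsto.mul_const _ Filter.tendsto_id
      rw [zero_mul] at this
      exact this.mono_left nhdsWithin_le_nhds
    filter_upwards [h4.eventually (gt_mem_nhds h3)] with ε h5 _
    exact h5
  obtain ⟨ε, hε, hε0⟩ := (hev.and self_mem_nhdsWithin).exists
  have hε0 : 0 < ε := hε0
  refine ⟨U + ε • W, fun j => ?_⟩
  rw [dotProduct_add, dotProduct_smul, smul_eq_mul]
  by_cases hj : j ∈ Z
  · have h0 : V j ⬝ᵥ U = 0 := (Finset.mem_filter.1 hj).2
    rw [h0, zero_add, hW j hj]
    constructor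
    · intro h
      rw [if_pos h, mul_one]
      exact hε0
    · intro h
      rw [if_neg h]
      linarith
  · have h1 := hε j hj
    have h0 : V j ⬝ᵥ U ≠ 0 := fun h => hj (Finset.mem_filter.2 ⟨Finset.mem_univ j, h⟩)
    have h4 : |ε * (V j ⬝ᵥ W)| < |V j ⬝ᵥ U| := by
      rw [abs_mul, abs_of_pos hε0]
      exact h1
    constructor
    · intro h
      have h5 : 0 < V j ⬝ᵥ U := lt_of_le_of_ne ((hA j).1 h) h0.symm
      rw [abs_of_pos h5] at h4
      have := (abs_lt.1 h4).1
      linarith
    · intro h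
      have h5 : V j ⬝ᵥ U < 0 := lt_of_le_of_ne ((hA j).2 h) h0
      rw [abs_of_neg h5] at h4
      have := (abs_lt.1 h4).2
      linarith

open Classical in
/-- a point set from its Gale vectors: both vectors -/
theorem gale2 {ι : Type} [Fintype ι] [DecidableEq ι] {d m : ℕ} (hd : 1 ≤ d) (hm : 1 ≤ m)
    (hι : Fintype.card ι = d + m + 1) (V : ι → Fin m → ℝ) (c : ι → ℝ) (hc : ∀ j, 0 < c j)
    (hV : ∑ j, c j • V j = 0) (Y : Finset ι → Fin m → ℝ)
    (hY : ∀ X : Finset ι, X.card + 1 = m → ∀ j, V j ⬝ᵥ Y X = 0 ↔ j ∈ X) :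
    ∃ S : Finset (E d), S.card = d + m + 1 ∧ GP S ∧ (∀ i, PP S i =
      (univ.filter fun X : Finset ι => X.card + 1 = m ∧
        ((univ.filter fun j => 0 < V j ⬝ᵥ Y X).card = i ∨
          (univ.filter fun j => 0 < V j ⬝ᵥ Y X).card + i = d + 2)).card) ∧
      ∀ i, 2 * i < d + m + 1 → rr S i = (univ.filter fun A : Finset ι => A.card = i ∧ Cell V A).card := by
  classical
  obtain ⟨B, hB0, hBi, hBV⟩ := GAL_basis (d := d) hι V c hV
  let p : ι → E d := fun j k => B k.succ j
  have hhv : ∀ j k, hv (p j) k = B k j := by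
    intro j k
    refine Fin.cases ?_ (fun k => ?_) k
    · rw [hB0]
      simp [hv]
    · simp [hv, p]
  have hgp : GPc p := by
    intro I hI h0
    obtain ⟨x, hx0, hx⟩ := (Matrix.exists_mulVec_eq_zero_iff (M := Matrix.of fun r c => hv (p (I r)) c)).2 h0
    let α : ι → ℝ := fun j => ∑ k, x k * B k j
    have hα : ∑ j, (α j * c j) • V j = 0 := by
      have h1 : ∀ j, (α j * c j) • V j = ∑ k, x k • ((B k j * c j) • V j) := by
        intro j
        show ((∑ k, x k * B k j) * c j) • V j = _
        rw [Finset.sum_mul, Finset.sum_smul]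
        apply Finset.sum_congr rfl
        intro k _
        rw [smul_smul, mul_assoc]
      rw [Finset.sum_congr rfl fun j _ => h1 j, Finset.sum_comm]
      apply Finset.sum_eq_zero
      intro k _
      rw [← Finset.smul_sum, hBV, smul_zero]
    have hαI : ∀ r, α (I r) = 0 := by
      intro r
      have h1 := congrFun hx r
      rw [Pi.zero_apply] at h1
      rw [← h1]
      show ∑ k, x k * B k (I r) = ∑ k, (Matrix.of fun r c => hv (p (I r)) c) r k * x k
      apply Finset.sum_congr rfl
      intro k _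
      rw [Matrix.of_apply, hhv, mul_comm]
    have hsupp : ∀ j, α j = 0 := by
      intro j
      by_cases hj : j ∈ univ.image I
      · obtain ⟨r, _, rfl⟩ := Finset.mem_image.1 hj
        exact hαI r
      · have hZ : ((univ.image I)ᶜ : Finset ι).card ≤ m := by
          rw [Finset.card_compl, Finset.card_image_of_injective _ hI, Finset.card_univ, Fintype.card_fin, hι]
          omega
        have h1 : ∑ j ∈ (univ.image I)ᶜ, (α j * c j) • V j = 0 := by
          rw [← hα]
          apply Finset.sum_subset (subset_univ _)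
          intro i _ hi
          rw [Finset.mem_compl, not_not] at hi
          obtain ⟨r, _, rfl⟩ := Finset.mem_image.1 hi
          rw [hαI, zero_mul, zero_smul]
        have h2 := GAL_indep hm (by omega) V Y hY _ hZ (fun j => α j * c j) h1 j (Finset.mem_compl.2 hj)
        exact (mul_eq_zero.1 h2).resolve_right (hc j).ne'
    apply hx0
    have h3 : ∑ k, x k • B k = 0 := by
      funext j
      rw [Finset.sum_apply, Pi.zero_apply, ← hsupp j]
      apply Finset.sum_congr rfl
      intro k _
      rw [Pi.smul_apply, smul_eq_mul]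
    funext k
    exact Fintype.linearIndependent_iff.1 hBi x h3 k
  have hι' : d + 1 ≤ Fintype.card ι := by omega
  have hinj := inj_of_gpc hgp hι' hd
  refine ⟨univ.image p, ?_, (gp_iff hinj hι').2 hgp, ?_, ?_⟩
  · rw [Finset.card_image_of_injective _ hinj, Finset.card_univ, hι]
  · intro i
    rw [pp_eq hgp hι' hd]
    unfold Pc
    -- the type of the complement of `X`
    have hty : ∀ X : Finset ι, X.card + 1 = m → ∀ i, Ty p Xᶜ i ↔
        ((univ.filter fun j => 0 < V j ⬝ᵥ Y X).card = i ∨
          (univ.filter fun j => 0 < V j ⬝ᵥ Y X).card + i = d + 2) := by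
      intro X hX i
      have hXc : (Xᶜ).card = d + 2 := by
        rw [Finset.card_compl, hι]
        omega
      have h0 : Ty p Xᶜ (univ.filter fun j => 0 < V j ⬝ᵥ Y X).card := by
        refine ⟨fun j => c j * (V j ⬝ᵥ Y X), ?_, ?_, ?_⟩
        · unfold Dep
          funext k
          rw [Finset.sum_apply, Pi.zero_apply]
          have h1 : (∑ j, (B k j * c j) • V j) ⬝ᵥ Y X = 0 := by rw [hBV, zero_dotProduct]
          rw [sum_dotProduct] at h1
          rw [← h1]
          apply Finset.sum_congr rfl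
          intro j _
          rw [Pi.smul_apply, smul_eq_mul, hhv, smul_dotProduct, smul_eq_mul]
          ring
        · intro j
          rw [Finset.mem_compl, ← hY X hX j]
          constructor
          · intro h h1
            exact h (by show c j * (V j ⬝ᵥ Y X) = 0; rw [h1, mul_zero])
          · intro h
            exact mul_ne_zero (hc j).ne' h
        · congr 1
          apply Finset.filter_congr
          intro j _
          exact mul_pos_iff_of_pos_left (hc j)
      rw [ty_cases hgp hXc h0]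
      constructor
      · rintro (h | h)
        · exact Or.inl h.symm
        · exact Or.inr h
      · rintro (h | h)
        · exact Or.inl h.symm
        · exact Or.inr h
    apply Finset.card_nbij' (fun Z => Zᶜ) (fun X => Xᶜ)
    · intro Z hZ
      rw [Finset.mem_coe, Finset.mem_filter, Finset.mem_powersetCard] at hZ
      obtain ⟨⟨-, h1⟩, h2⟩ := hZ
      have h3 : (Zᶜ).card + 1 = m := by
        rw [Finset.card_compl, hι, h1]
        omega
      rw [Finset.mem_coe, Finset.mem_filter]
      refine ⟨mem_univ _, h3, ?_⟩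
      rw [← hty _ h3, compl_compl]
      exact h2
    · intro X hX
      rw [Finset.mem_coe, Finset.mem_filter] at hX
      obtain ⟨-, h1, h2⟩ := hX
      rw [Finset.mem_coe, Finset.mem_filter, Finset.mem_powersetCard]
      refine ⟨⟨subset_univ _, ?_⟩, (hty X h1 i).2 h2⟩
      rw [Finset.card_compl, hι]
      omega
    · intro Z _
      exact compl_compl Z
    · intro X _
      exact compl_compl X
  · intro i hi
    rw [rr_eq hgp hι' hd, Rc_card _ _ (by rw [hι]; exact hi)]
    congr 1
    ext A
    rw [Finset.mem_filter, Finset.mem_filter]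
    apply and_congr_right
    intro _
    apply and_congr_right
    intro _
    have hdep : ∀ U : Fin m → ℝ, Dep p fun j => c j * (V j ⬝ᵥ U) := by
      intro U
      unfold Dep
      funext k
      rw [Finset.sum_apply, Pi.zero_apply]
      have h1 : (∑ j, (B k j * c j) • V j) ⬝ᵥ U = 0 := by rw [hBV, zero_dotProduct]
      rw [sum_dotProduct] at h1
      rw [← h1]
      apply Finset.sum_congr rfl
      intro j _
      rw [Pi.smul_apply, smul_eq_mul, hhv, smul_dotProduct, smul_eq_mul]
      ring
    have hne : Nonempty ι := by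
      rw [← Fintype.card_pos_iff]
      omega
    constructor
    · rintro ⟨a, ha, ha0, haA⟩
      obtain ⟨Z, -, hZ⟩ := Finset.exists_subset_card_eq (s := (univ : Finset ι)) (n := m) (by rw [Finset.card_univ]; omega)
      obtain ⟨U, hU⟩ := solve hm (by omega) V Y hY Z hZ.le (fun j => a j / c j)
      have hUa : ∀ j, a j = c j * (V j ⬝ᵥ U) := by
        by_contra hcon
        push Not at hcon
        obtain ⟨j0, hj0⟩ := hcon
        have hd2 : Dep p fun j => a j - c j * (V j ⬝ᵥ U) := by
          have h1 := hdep U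
          unfold Dep at h1 ha ⊢
          rw [Finset.sum_congr rfl fun j _ => sub_smul (a j) (c j * (V j ⬝ᵥ U)) (hv (p j)), Finset.sum_sub_distrib,
            ha, h1, sub_zero]
        have h2 := LinkP_supp hgp hι' hd2 (fun h => hj0 (sub_eq_zero.1 (congrFun h j0)))
        have h3 : (univ.filter fun j => a j - c j * (V j ⬝ᵥ U) ≠ 0) ⊆ Zᶜ := by
          intro j hj
          rw [Finset.mem_filter] at hj
          rw [Finset.mem_compl]
          intro hjZ
          apply hj.2
          rw [hU j hjZ, mul_div_cancel₀ _ (hc j).ne', sub_self]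
        have h4 := Finset.card_le_card h3
        rw [Finset.card_compl, hι, hZ] at h4
        omega
      have hU0 : U ≠ 0 := by
        rintro rfl
        apply ha0
        funext j
        rw [hUa j, dotProduct_zero, mul_zero, Pi.zero_apply]
      refine cell_of_weak hm (by omega) V Y hY U hU0 A (fun j => ?_)
      have h1 := haA j
      rw [hUa j] at h1
      constructor
      · intro h
        exact nonneg_of_mul_nonneg_right (h1.1 h) (hc j)
      · intro h
        exact nonpos_of_mul_nonpos_right (h1.2 h) (hc j)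
    · rintro ⟨U, hU⟩
      refine ⟨fun j => c j * (V j ⬝ᵥ U), hdep U, ?_, ?_⟩
      · intro h0
        obtain ⟨j⟩ := hne
        have h1 := congrFun h0 j
        have h2 : V j ⬝ᵥ U ≠ 0 := by
          by_cases hj : j ∈ A
          · exact ((hU j).1 hj).ne'
          · exact ((hU j).2 hj).ne
        exact mul_ne_zero (hc j).ne' h2 h1
      · intro j
        constructor
        · intro hj
          exact mul_nonneg (hc j).le ((hU j).1 hj).le
        · intro hj
          exact mul_nonpos_of_nonneg_of_nonpos (hc j).le ((hU j).2 hj).le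

end Pool.Agent.RIS
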