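import Pool.Agent.MP_c130bd_co.RIS.Lev
import Pool.Agent.MP_c130bd_co.RIS.Gale

/-!
# Initial segments of Radon vectors (MP_c130bd_co): `s = d + 4`
-/

set_option autoImplicit false

namespace Pool.Agent.RIS

open Finset Pool.Agent.RVM

section

variable {n N D M : ℕ} {L : ℕ → ℕ} {x y : ℕ → ℝ} {z : ℝ × ℝ} {θ : ℕ → ℝ}

/-- the set of the odd indices -/
def oddS (N : ℕ) : Finset (Fin (2 * N)) := univ.filter fun t => Odd (t : ℕ)

theorem sign_inr {U : Fin 3 → ℝ} (h : ∀ t, fe (ex n (2 * N) x z θ) (ey n (2 * N) y z θ) U (Sum.inr t) < 0) (t : Fin (2 * N)) :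
    (t ∈ oddS N → 0 < GV n N x y z θ (Sum.inr t) ⬝ᵥ U) ∧ (t ∉ oddS N → GV n N x y z θ (Sum.inr t) ⬝ᵥ U < 0) := by
  rw [GV_dot]
  have ht := h t
  have e : sg n N (Sum.inr t) = (-1) ^ (t : ℕ) := rfl
  rw [e]
  constructor
  · intro h1
    have h1 : Odd (t : ℕ) := (Finset.mem_filter.1 h1).2
    rw [h1.neg_one_pow]
    linarith
  · intro h1
    have h1 : Even (t : ℕ) := by
      rw [← Nat.not_odd_iff_even]
      exact fun h2 => h1 (Finset.mem_filter.2 ⟨Finset.mem_univ _, h2⟩)
    rw [h1.neg_one_pow, one_mul]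
    exact ht

theorem GV_inl (U : Fin 3 → ℝ) (i : Fin n) :
    GV n N x y z θ (Sum.inl i) ⬝ᵥ U = fe (fun a : Fin n => x a) (fun a : Fin n => y a) U i := by
  rw [GV_dot]
  have : sg n N (Sum.inl i) = 1 := rfl
  rw [this, one_mul]
  rfl

theorem cell_card {A : Finset (Fin n ⊕ Fin (2 * N))} {U : Fin 3 → ℝ}
    (hU : ∀ j, (j ∈ A → 0 < GV n N x y z θ j ⬝ᵥ U) ∧ (j ∉ A → GV n N x y z θ j ⬝ᵥ U < 0)) : A.card = pos n N x y z θ U := by
  unfold pos
  congr 1
  ext j
  rw [Finset.mem_filter]
  constructor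
  · intro h
    exact ⟨Finset.mem_univ _, (hU j).1 h⟩
  · rintro ⟨-, h⟩
    by_contra h1
    exact lt_irrefl _ (h.trans ((hU j).2 h1))

theorem cell_ne {A : Finset (Fin n ⊕ Fin (2 * N))} {U : Fin 3 → ℝ} (hn : 0 < n)
    (hU : ∀ j, (j ∈ A → 0 < GV n N x y z θ j ⬝ᵥ U) ∧ (j ∉ A → GV n N x y z θ j ⬝ᵥ U < 0)) : U ≠ 0 := by
  rintro rfl
  have := hU (Sum.inl ⟨0, hn⟩)
  rw [dotProduct_zero] at this
  by_cases h : Sum.inl ⟨0, hn⟩ ∈ A
  · exact lt_irrefl _ (this.1 h)
  · exact lt_irrefl _ (this.2 h)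

open Classical in
/-- small cells -/
theorem cells (hD : 0 < D) (hn : 3 * D ≤ n) (hθ : ∀ i t, i < t → t < 2 * N → θ i < θ t)
    (hdeep : ∀ t < 2 * N, Deep D x y (arc z (θ t))) (i : ℕ) (hi : i + 1 < D + N) :
    (univ.filter fun A : Finset (Fin n ⊕ Fin (2 * N)) => A.card = i ∧ Cell (GV n N x y z θ) A).card =
      (univ.filter fun B : Finset (Fin n) => B.card + N = i ∧ SepP (fun a : Fin n => x a) (fun a : Fin n => y a) B).card := by
  symm
  have hodd : (oddS N).card = N := odd_card N
  apply Finset.card_bij (fun B _ => B.disjSum (oddS N))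
  · intro B hB
    rw [Finset.mem_filter] at hB
    obtain ⟨-, hB1, a, b, c, hs⟩ := hB
    rw [Finset.mem_filter]
    refine ⟨Finset.mem_univ _, by rw [Finset.card_disjSum, hodd]; exact hB1, ![c, a, b], ?_⟩
    have hfe : ∀ i : Fin n, fe (fun a : Fin n => x a) (fun a : Fin n => y a) ![c, a, b] i = a * x i + b * y i + c := by
      intro i
      unfold fe
      simp
      ring
    have hU : (![c, a, b] : Fin 3 → ℝ) ≠ 0 := by
      intro h0
      have h1 := hfe ⟨0, by omega⟩
      rw [h0] at h1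
      have h2 : fe (fun a : Fin n => x a) (fun a : Fin n => y a) 0 (⟨0, by omega⟩ : Fin n) = 0 := by
        unfold fe
        simp
      rw [h2] at h1
      have h3 := hs ⟨0, by omega⟩
      rw [← h1] at h3
      by_cases h : (⟨0, by omega⟩ : Fin n) ∈ B
      · exact lt_irrefl _ (h3.1 h)
      · exact lt_irrefl _ (h3.2 h)
    have hpl : posl n x y ![c, a, b] = B.card := by
      unfold posl
      congr 1
      ext i
      rw [Finset.mem_filter, hfe]
      constructor
      · rintro ⟨-, h⟩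
        by_contra h1
        exact lt_irrefl _ (h.trans ((hs i).2 h1))
      · intro h
        exact ⟨Finset.mem_univ _, (hs i).1 h⟩
    have hneg := (dicho (N := N) hn hθ hdeep ![c, a, b] hU).resolve_right (by
      rintro ⟨h1, -⟩
      rw [hpl] at h1
      omega)
    intro j
    rcases j with i | t
    · rw [GV_inl, hfe, Finset.inl_mem_disjSum]
      exact hs i
    · rw [Finset.inr_mem_disjSum]
      exact sign_inr hneg t
  · intro B _ B' _ h
    have := congrArg Finset.toLeft h
    rwa [Finset.toLeft_disjSum, Finset.toLeft_disjSum] at this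
  · intro A hA
    rw [Finset.mem_filter] at hA
    obtain ⟨-, hA1, U, hU⟩ := hA
    have hU0 := cell_ne (by omega) hU
    have hc := cell_card hU
    have hneg := (dicho (N := N) hn hθ hdeep U hU0).resolve_right (by
      rintro ⟨-, h1⟩
      omega)
    have hright : A.toRight = oddS N := by
      ext t
      rw [Finset.mem_toRight]
      have h1 := sign_inr hneg t
      have h2 := hU (Sum.inr t)
      constructor
      · intro h
        by_contra h3
        exact lt_irrefl _ ((h1.2 h3).trans (h2.1 h))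
      · intro h
        by_contra h3
        exact lt_irrefl _ ((h2.2 h3).trans (h1.1 h))
    have hA2 : A.toLeft.disjSum (oddS N) = A := by
      rw [← hright, Finset.toLeft_disjSum_toRight]
    refine ⟨A.toLeft, ?_, hA2⟩
    rw [Finset.mem_filter]
    refine ⟨Finset.mem_univ _, ?_, U 1, U 2, U 0, ?_⟩
    · rw [← hA1, ← hA2, Finset.card_disjSum, hodd, Finset.toLeft_disjSum]
    · intro i
      have h2 := hU (Sum.inl i)
      rw [GV_inl] at h2
      unfold fe at h2
      rw [Finset.mem_toLeft]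
      constructor
      · intro h
        have := h2.1 h
        linarith
      · intro h
        have := h2.2 h
        linarith

end

end Pool.Agent.RIS
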