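import Pool.Agent.MP_c130bd_co.RIS.Win

/-!
# Initial segments of Radon vectors (MP_c130bd_co): planar configurations with a deep point
-/

set_option autoImplicit false

namespace Pool.Agent.RIS

open Finset

/-- the orientation of two points and a point of the plane -/
def dq {ι : Type*} (x y : ι → ℝ) (a b : ι) (z : ℝ × ℝ) : ℝ :=
  (x b - x a) * (z.2 - y a) - (y b - y a) * (z.1 - x a)

/-- the point `z` is in the interior of the triangles `D + k`, `k`, `2 D + k` -/
def Deep (D : ℕ) (x y : ℕ → ℝ) (z : ℝ × ℝ) : Prop :=
  ∀ k < D, 0 < dt x y (D + k) k (2 * D + k) ∧ 0 < dq x y (D + k) k z ∧ 0 < dq x y k (2 * D + k) z ∧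
    0 < dq x y (2 * D + k) (D + k) z

/-- the sequence without the member `M` -/
def sk (M i : ℕ) : ℕ := if i < M then i else i + 1

theorem sk_lt {M a b : ℕ} (h : a < b) : sk M a < sk M b := by
  unfold sk
  split_ifs <;> omega

theorem exists_ghost (n D : ℕ) (hn : 3 * D ≤ n) (L : ℕ → ℕ) (hL : ∀ b < n, L b ≤ b)
    (hL' : ∀ m < n, 2 * D ≤ m → L m < D) : ∃ x y z, Cfg n (2 * D) L x y ∧ Deep D x y z := by
  set M := 2 * D with hM
  obtain ⟨x, y, h⟩ := exists_cfg (n + 1) M (by omega) (fun j => if j < M then L j else if j = M then D else L (j - 1)) (by
    intro b hb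
    split_ifs with h1 h2
    · exact hL b (by omega)
    · omega
    · have := hL (b - 1) (by omega)
      omega)
  have rM : rk x M M = D := by
    have := h.rG M (by omega) le_rfl
    simpa using this
  -- the position of the ghost
  have hlow : ∀ l < M, D ≤ l → x l < x M := by
    intro l hl hDl
    by_contra h1
    have h2 : rk x M M ≤ M - 1 - l := by
      unfold rk
      have : (range M).filter (fun i => x i < x M) ⊆ Ico (l + 1) M := by
        intro i hi
        rw [Finset.mem_filter, Finset.mem_range] at hi
        rw [Finset.mem_Ico]
        refine ⟨?_, hi.1⟩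
        by_contra h3
        rcases Nat.lt_or_ge i l with h4 | h4
        · have := h.xT i l h4 hl
          linarith [hi.2]
        · obtain rfl : i = l := by omega
          exact h1 hi.2
      have := Finset.card_le_card this
      rw [Nat.card_Ico] at this
      omega
    omega
  have hhigh : ∀ l < D, x M < x l := by
    intro l hl
    by_contra h1
    have h0 : x l ≠ x M := h.ne l (by omega) M (by omega) (by omega)
    have h1' : x l < x M := lt_of_le_of_ne (not_lt.1 h1) h0
    have h2 : M - l ≤ rk x M M := by
      unfold rk
      have : Ico l M ⊆ (range M).filter (fun i => x i < x M) := by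
        intro i hi
        rw [Finset.mem_Ico] at hi
        rw [Finset.mem_filter, Finset.mem_range]
        refine ⟨hi.2, ?_⟩
        rcases Nat.lt_or_ge l i with h4 | h4
        · have := h.xT l i h4 hi.2
          linarith
        · obtain rfl : i = l := by omega
          exact h1'
      have := Finset.card_le_card this
      rw [Nat.card_Ico] at this
      omega
    omega
  -- the later points are to the left of the ghost
  have hleft : ∀ m, M < m → m < n + 1 → ¬ x M < x m := by
    intro m hm hmn h1
    have h2 := h.rG m hmn (by omega)
    simp only [if_neg (by omega : ¬ m < M), if_neg (by omega : ¬ m = M)] at h2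
    have h3 := hL' (m - 1) (by omega) (by omega)
    have h4 : D ≤ rk x m m := by
      rw [← rM]
      unfold rk
      apply Finset.card_le_card
      intro i hi
      rw [Finset.mem_filter, Finset.mem_range] at hi ⊢
      exact ⟨by omega, hi.2.trans h1⟩
    omega
  refine ⟨fun i => x (sk M i), fun i => y (sk M i), (x M, y M), ?_, ?_⟩
  · refine ⟨?_, ?_, ?_, ?_, ?_, ?_, ?_⟩
    · intro a ha b hb hab
      apply h.ne
      · unfold sk; split_ifs <;> omega
      · unfold sk; split_ifs <;> omega
      · unfold sk; split_ifs <;> omega
    · intro a ha b hb hab
      simp only [sk, if_pos ha, if_pos hb]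
      exact h.neT a ha b hb hab
    · intro a b hab hb
      simp only [sk, if_pos hb, if_pos (hab.trans hb)]
      exact h.xT a b hab hb
    · intro b hb
      have h1 := h.rT b hb
      simp only [if_pos hb] at h1
      rw [← h1]
      unfold rk
      congr 1
      apply Finset.filter_congr
      intro l hl
      rw [Finset.mem_range] at hl
      simp only [sk, if_pos hb, if_pos (hl.trans hb)]
    · intro m hm hMm
      have h1 := h.rG (m + 1) (by omega) (by omega)
      simp only [if_neg (by omega : ¬ m + 1 < M), if_neg (by omega : ¬ m + 1 = M), Nat.add_sub_cancel] at h1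
      rw [← h1]
      unfold rk
      apply Finset.card_bij (fun i _ => sk M i)
      · intro i hi
        rw [Finset.mem_filter, Finset.mem_range] at hi ⊢
        have e : sk M m = m + 1 := by
          unfold sk
          rw [if_neg (by omega)]
        simp only [e] at hi
        refine ⟨?_, hi.2⟩
        unfold sk
        split_ifs <;> omega
      · intro i _ j _ hij
        rcases lt_trichotomy i j with h2 | h2 | h2
        · exact absurd hij (sk_lt h2).ne
        · exact h2
        · exact absurd hij (sk_lt h2).ne'
      · intro i hi
        rw [Finset.mem_filter, Finset.mem_range] at hi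
        have hiM : i ≠ M := by
          rintro rfl
          exact hleft (m + 1) (by omega) (by omega) hi.2
        have e : sk M m = m + 1 := by
          unfold sk
          rw [if_neg (by omega)]
        by_cases h2 : i < M
        · refine ⟨i, ?_, by unfold sk; rw [if_pos h2]⟩
          rw [Finset.mem_filter, Finset.mem_range]
          refine ⟨by omega, ?_⟩
          simp only [e]
          rw [show sk M i = i by unfold sk; rw [if_pos h2]]
          exact hi.2
        · refine ⟨i - 1, ?_, by unfold sk; rw [if_neg (by omega)]; omega⟩
          rw [Finset.mem_filter, Finset.mem_range]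
          refine ⟨by omega, ?_⟩
          simp only [e]
          rw [show sk M (i - 1) = i by unfold sk; rw [if_neg (by omega)]; omega]
          exact hi.2
    · intro a b l hab hbl hl
      have := h.sT a b l hab hbl hl
      unfold dt at this ⊢
      simp only [sk, if_pos hl, if_pos (hbl.trans hl), if_pos (hab.trans (hbl.trans hl))]
      exact this
    · intro a b l hab hbl hl hMl
      have h1 : sk M l = l + 1 := by
        unfold sk
        rw [if_neg (by omega)]
      exact h.sG (sk M a) (sk M b) (sk M l) (sk_lt hab) (sk_lt hbl) (by omega) (by omega)
  · intro k hk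
    have e1 : sk M (D + k) = D + k := by unfold sk; rw [if_pos (by omega)]
    have e2 : sk M k = k := by unfold sk; rw [if_pos (by omega)]
    have e3 : sk M (2 * D + k) = 2 * D + k + 1 := by unfold sk; rw [if_neg (by omega)]
    have hx1 := h.xT k (D + k) (by omega) (by omega)
    have hx2 := hlow (D + k) (by omega) (by omega)
    have hx3 := hhigh k hk
    have s1 := h.sG k (D + k) (2 * D + k + 1) (by omega) (by omega) (by omega) (by omega)
    have s2 := h.sG k (D + k) M (by omega) (by omega) (by omega) le_rfl
    have s3 := h.sG k M (2 * D + k + 1) (by omega) (by omega) (by omega) (by omega)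
    have s4 := h.sG (D + k) M (2 * D + k + 1) (by omega) (by omega) (by omega) (by omega)
    refine ⟨?_, ?_, ?_, ?_⟩
    · unfold dt at s1 ⊢
      simp only [e1, e2, e3]
      nlinarith
    · unfold dt at s2
      unfold dq
      simp only [e1, e2]
      nlinarith
    · unfold dt at s3
      unfold dq
      simp only [e2, e3]
      nlinarith
    · unfold dt at s4
      unfold dq
      simp only [e1, e3]
      nlinarith

end Pool.Agent.RIS
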