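import Pool.Agent.MP_c130bd_co.RIS.Count

/-!
# Initial segments of Radon vectors (MP_c130bd_co): separable sets and ordered pairs
-/

set_option autoImplicit false

namespace Pool.Agent.RIS

open Finset

variable {ι : Type*} [Fintype ι] [DecidableEq ι]

omit [Fintype ι] [DecidableEq ι] in
/-- `A` is separated from the other points by a line -/
def SepP (x y : ι → ℝ) (A : Finset ι) : Prop :=
  ∃ a b c : ℝ, ∀ j, (j ∈ A → 0 < a * x j + b * y j + c) ∧ (j ∉ A → a * x j + b * y j + c < 0)

omit [Fintype ι] [DecidableEq ι] in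
theorem four (x y : ι → ℝ) (a b c d : ι) : dt x y a b c + dt x y a c d = dt x y a b d + dt x y b c d := by
  unfold dt
  ring

open Classical in
/-- the set which belongs to an ordered pair -/
noncomputable def FF (x y : ι → ℝ) (pq : ι × ι) : Finset ι :=
  insert pq.1 (univ.filter fun l => 0 < dt x y pq.1 pq.2 l)

theorem FF_card (x y : ι → ℝ) (pq : ι × ι) :
    (FF x y pq).card = (univ.filter fun l => 0 < dt x y pq.1 pq.2 l).card + 1 := by
  unfold FF
  rw [Finset.card_insert_of_notMem]
  intro h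
  rw [Finset.mem_filter, dt_self] at h
  exact lt_irrefl _ h.2

theorem FF_sep {x y : ι → ℝ} (hne : ∀ a b c : ι, a ≠ b → a ≠ c → b ≠ c → dt x y a b c ≠ 0) {p q : ι} (hpq : p ≠ q)
    (hx : x p ≠ x q ∨ y p ≠ y q) : SepP x y (FF x y (p, q)) := by
  -- a functional which is positive at `p` and negative at `q`
  set g : ι → ℝ := fun z => -((x z - (x p + x q) / 2) * (x q - x p) + (y z - (y p + y q) / 2) * (y q - y p)) with hg
  have hnorm : 0 < (x q - x p) ^ 2 + (y q - y p) ^ 2 := by
    rcases hx with h | h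
    · have : x q - x p ≠ 0 := sub_ne_zero.2 h.symm
      positivity
    · have : y q - y p ≠ 0 := sub_ne_zero.2 h.symm
      positivity
  have hgp : 0 < g p := by
    have e : g p = ((x q - x p) ^ 2 + (y q - y p) ^ 2) / 2 := by
      simp only [hg]
      ring
    rw [e]
    positivity
  have hgq : g q < 0 := by
    have e : g q = -(((x q - x p) ^ 2 + (y q - y p) ^ 2) / 2) := by
      simp only [hg]
      ring
    rw [e]
    have : 0 < ((x q - x p) ^ 2 + (y q - y p) ^ 2) / 2 := by positivity
    linarith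
  have hev : ∀ᶠ ε in nhdsWithin (0 : ℝ) (Set.Ioi 0), ∀ l : ι, l ≠ p → l ≠ q → ε * |g l| < |dt x y p q l| := by
    rw [Filter.eventually_all]
    intro l
    by_cases h1 : l = p
    · exact Filter.Eventually.of_forall fun _ h => absurd h1 h
    by_cases h2 : l = q
    · exact Filter.Eventually.of_forall fun _ _ h => absurd h2 h
    have h3 : 0 < |dt x y p q l| := abs_pos.2 (hne p q l hpq (Ne.symm h1) (Ne.symm h2))
    have h4 : Filter.Tendsto (fun ε : ℝ => ε * |g l|) (nhdsWithin 0 (Set.Ioi 0)) (nhds 0) := by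
      have : Filter.Tendsto (fun ε : ℝ => ε * |g l|) (nhds 0) (nhds (0 * |g l|)) :=
        Filter.Tendsto.mul_const _ Filter.tendsto_id
      rw [zero_mul] at this
      exact this.mono_left nhdsWithin_le_nhds
    filter_upwards [h4.eventually (gt_mem_nhds h3)] with ε h5 _ _
    exact h5
  obtain ⟨ε, hε, hε0⟩ := (hev.and self_mem_nhdsWithin).exists
  have hε0 : 0 < ε := hε0
  refine ⟨-(y q - y p) + ε * -(x q - x p), (x q - x p) + ε * -(y q - y p),
    -(x q - x p) * y p + (y q - y p) * x p + ε * ((x p + x q) / 2 * (x q - x p) + (y p + y q) / 2 * (y q - y p)), ?_⟩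
  intro l
  have e : (-(y q - y p) + ε * -(x q - x p)) * x l + ((x q - x p) + ε * -(y q - y p)) * y l +
      (-(x q - x p) * y p + (y q - y p) * x p + ε * ((x p + x q) / 2 * (x q - x p) + (y p + y q) / 2 * (y q - y p))) =
      dt x y p q l + ε * g l := by
    simp only [hg]
    unfold dt
    ring
  rw [e]
  have hmem : l ∈ FF x y (p, q) ↔ l = p ∨ 0 < dt x y p q l := by
    unfold FF
    rw [Finset.mem_insert, Finset.mem_filter]
    simp
  rw [hmem]
  by_cases h1 : l = p
  · subst h1
    rw [dt_self, zero_add]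
    exact ⟨fun _ => mul_pos hε0 hgp, fun h => absurd (Or.inl rfl) h⟩
  by_cases h2 : l = q
  · subst h2
    rw [dt_self', zero_add]
    refine ⟨?_, fun _ => mul_neg_of_pos_of_neg hε0 hgq⟩
    rintro (h | h)
    · exact absurd h h1
    · exact absurd h (lt_irrefl _)
  have h3 := hε l h1 h2
  have h4 : |ε * g l| < |dt x y p q l| := by
    rw [abs_mul, abs_of_pos hε0]
    exact h3
  constructor
  · rintro (h | h)
    · exact absurd h h1
    · rw [abs_of_pos h] at h4
      have := (abs_lt.1 h4).1
      linarith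
  · intro h
    have h5 : dt x y p q l < 0 := by
      rcases lt_or_gt_of_ne (hne p q l hpq (Ne.symm h1) (Ne.symm h2)) with h5 | h5
      · exact h5
      · exact absurd (Or.inr h5) h
    rw [abs_of_neg h5] at h4
    have := (abs_lt.1 h4).2
    linarith

theorem FF_inj {x y : ι → ℝ} (hne : ∀ a b c : ι, a ≠ b → a ≠ c → b ≠ c → dt x y a b c ≠ 0) {p q p' q' : ι}
    (hpq : p ≠ q) (hpq' : p' ≠ q') (h : FF x y (p, q) = FF x y (p', q')) : p = p' ∧ q = q' := by
  have hmem : ∀ p q l : ι, l ∈ FF x y (p, q) ↔ l = p ∨ 0 < dt x y p q l := by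
    intro p q l
    unfold FF
    rw [Finset.mem_insert, Finset.mem_filter]
    simp
  have hp : p ∈ FF x y (p', q') := by
    rw [← h, hmem]
    exact Or.inl rfl
  have hp' : p' ∈ FF x y (p, q) := by
    rw [h, hmem]
    exact Or.inl rfl
  have hq : q ∉ FF x y (p', q') := by
    rw [← h, hmem]
    rintro (h1 | h1)
    · exact hpq h1.symm
    · rw [dt_self'] at h1
      exact lt_irrefl _ h1
  have hq' : q' ∉ FF x y (p, q) := by
    rw [h, hmem]
    rintro (h1 | h1)
    · exact hpq' h1.symm
    · rw [dt_self'] at h1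
      exact lt_irrefl _ h1
  rw [hmem] at hp hp' hq hq'
  push Not at hq hq'
  by_cases h1 : p = p'
  · subst h1
    refine ⟨rfl, ?_⟩
    by_contra h2
    have h3 : dt x y p q q' < 0 := lt_of_le_of_ne hq'.2 (hne p q q' hpq (Ne.symm hq'.1) h2)
    have h4 : dt x y p q' q ≤ 0 := hq.2
    rw [dt_swap'] at h4
    linarith
  · have h3 : 0 < dt x y p' q' p := hp.resolve_left h1
    have h4 : 0 < dt x y p q p' := hp'.resolve_left (Ne.symm h1)
    by_cases h2 : q = q'
    · subst h2
      exfalso
      have h5 : dt x y p' q p = -dt x y p q p' := by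
        unfold dt
        ring
      linarith
    · exfalso
      have h5 : dt x y p q q' ≤ 0 := hq'.2
      have h6 : dt x y p' q' q ≤ 0 := hq.2
      have h7 := four x y p q p' q'
      have e1 : dt x y p p' q' = dt x y p' q' p := by
        unfold dt
        ring
      have e2 : dt x y q p' q' = dt x y p' q' q := by
        unfold dt
        ring
      linarith

theorem FF_surj {x y : ι → ℝ} (hne : ∀ a b c : ι, a ≠ b → a ≠ c → b ≠ c → dt x y a b c ≠ 0) {A : Finset ι}
    (hA : SepP x y A) (h1 : A.Nonempty) (h2 : Aᶜ.Nonempty) : ∃ p q, p ≠ q ∧ FF x y (p, q) = A := by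
  obtain ⟨a, b, c, hs⟩ := hA
  set h : ι → ℝ := fun j => a * x j + b * y j + c with hh
  set g : ι → ℝ := fun j => b * x j - a * y j with hg
  obtain ⟨⟨p, q⟩, hpq, hmax⟩ := Finset.exists_max_image (A ×ˢ Aᶜ) (fun r => (g r.2 - g r.1) / (h r.1 - h r.2))
    (h1.product h2)
  rw [Finset.mem_product] at hpq
  have hpA : p ∈ A := hpq.1
  have hqA : q ∉ A := Finset.mem_compl.1 hpq.2
  have hne' : p ≠ q := by
    rintro rfl
    exact hqA hpA
  have hd : ∀ u ∈ A, ∀ v, v ∉ A → 0 < h u - h v := by
    intro u hu v hv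
    have h3 := (hs u).1 hu
    have h4 := (hs v).2 hv
    simp only [hh]
    linarith
  have hab : 0 < a ^ 2 + b ^ 2 := by
    by_contra h3
    have ha : a = 0 := by nlinarith [sq_nonneg a, sq_nonneg b]
    have hb : b = 0 := by nlinarith [sq_nonneg a, sq_nonneg b]
    have h4 := hd p hpA q hqA
    simp only [hh, ha, hb] at h4
    linarith
  have hin : ∀ l ∈ A, l ≠ p → 0 < dt x y p q l := by
    intro l hl hlp
    have h3 := hmax (l, q) (Finset.mem_product.2 ⟨hl, hpq.2⟩)
    simp only at h3
    rw [div_le_div_iff₀ (hd l hl q hqA) (hd p hpA q hqA)] at h3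
    have e : (g q - g p) * (h l - h q) - (g q - g l) * (h p - h q) = (a ^ 2 + b ^ 2) * dt x y p q l := by
      simp only [hh, hg]
      unfold dt
      ring
    have h4 : 0 ≤ dt x y p q l := by
      by_contra h5
      have : (a ^ 2 + b ^ 2) * dt x y p q l < 0 := mul_neg_of_pos_of_neg hab (not_le.1 h5)
      linarith
    have hlq : l ≠ q := by
      rintro rfl
      exact hqA hl
    exact lt_of_le_of_ne h4 (hne p q l hne' (Ne.symm hlp) (Ne.symm hlq)).symm
  have hout : ∀ l, l ∉ A → ¬ 0 < dt x y p q l := by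
    intro l hl
    have h3 := hmax (p, l) (Finset.mem_product.2 ⟨hpA, Finset.mem_compl.2 hl⟩)
    simp only at h3
    rw [div_le_div_iff₀ (hd p hpA l hl) (hd p hpA q hqA)] at h3
    have e : (g q - g p) * (h p - h l) - (g l - g p) * (h p - h q) = -((a ^ 2 + b ^ 2) * dt x y p q l) := by
      simp only [hh, hg]
      unfold dt
      ring
    intro h5
    have : 0 < (a ^ 2 + b ^ 2) * dt x y p q l := mul_pos hab h5
    linarith
  refine ⟨p, q, hne', ?_⟩
  ext l
  unfold FF
  rw [Finset.mem_insert, Finset.mem_filter]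
  simp only [Finset.mem_univ, true_and]
  constructor
  · rintro (rfl | h3)
    · exact hpA
    · by_contra h4
      exact hout l h4 h3
  · intro hl
    by_cases h3 : l = p
    · exact Or.inl h3
    · exact Or.inr (hin l hl h3)

open Classical in
/-- the number of the separable sets of size `v + 1` is the number of the ordered pairs with `v` points on the left side -/
theorem kset {x y : ι → ℝ} (hx : ∀ a b : ι, a ≠ b → x a ≠ x b)
    (hne : ∀ a b c : ι, a ≠ b → a ≠ c → b ≠ c → dt x y a b c ≠ 0) (v : ℕ) (hv : v + 1 < Fintype.card ι) :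
    (univ.filter fun A : Finset ι => A.card = v + 1 ∧ SepP x y A).card =
      (univ.filter fun r : ι × ι => r.1 ≠ r.2 ∧ (univ.filter fun l => 0 < dt x y r.1 r.2 l).card = v).card := by
  symm
  apply Finset.card_bij (fun r _ => FF x y r)
  · rintro ⟨p, q⟩ hr
    rw [Finset.mem_filter] at hr
    rw [Finset.mem_filter]
    refine ⟨Finset.mem_univ _, ?_, FF_sep hne hr.2.1 (Or.inl (hx p q hr.2.1))⟩
    rw [FF_card]
    have := hr.2.2
    omega
  · rintro ⟨p, q⟩ hr ⟨p', q'⟩ hr' h
    rw [Finset.mem_filter] at hr hr'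
    obtain ⟨h1, h2⟩ := FF_inj hne hr.2.1 hr'.2.1 h
    exact Prod.ext h1 h2
  · intro A hA
    rw [Finset.mem_filter] at hA
    have h1 : A.Nonempty := by
      rw [← Finset.card_pos, hA.2.1]
      omega
    have h2 : Aᶜ.Nonempty := by
      rw [← Finset.card_pos, Finset.card_compl, hA.2.1]
      omega
    obtain ⟨p, q, h3, h4⟩ := FF_surj hne hA.2.2 h1 h2
    refine ⟨(p, q), ?_, h4⟩
    rw [Finset.mem_filter]
    refine ⟨Finset.mem_univ _, h3, ?_⟩
    have h5 := FF_card x y (p, q)
    rw [h4, hA.2.1] at h5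
    exact (Nat.succ.inj h5).symm

end Pool.Agent.RIS
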