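import Pool.Agent.MP_c130bd_co.RIS.Arc

/-!
# Initial segments of Radon vectors (MP_c130bd_co): the levels of the configurations with near-antipodal pairs
-/

set_option autoImplicit false

namespace Pool.Agent.RIS

open Finset

/-- an affine functional -/
def fe {ι : Type*} (X Y : ι → ℝ) (U : Fin 3 → ℝ) (j : ι) : ℝ := U 0 + U 1 * X j + U 2 * Y j

theorem fe_tri {ι : Type*} {X Y : ι → ℝ} {U : Fin 3 → ℝ} {a b c : ι} (h : dt X Y a b c ≠ 0)
    (ha : fe X Y U a = 0) (hb : fe X Y U b = 0) (hc : fe X Y U c = 0) : U = 0 := by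
  unfold fe at ha hb hc
  unfold dt at h
  have h1 : U 1 * (X b - X a) + U 2 * (Y b - Y a) = 0 := by linarith
  have h2 : U 1 * (X c - X a) + U 2 * (Y c - Y a) = 0 := by linarith
  have h3 : U 2 * ((X b - X a) * (Y c - Y a) - (Y b - Y a) * (X c - X a)) = 0 := by
    linear_combination (X b - X a) * h2 - (X c - X a) * h1
  have h4 : U 1 * ((X b - X a) * (Y c - Y a) - (Y b - Y a) * (X c - X a)) = 0 := by
    linear_combination (Y c - Y a) * h1 - (Y b - Y a) * h2
  have e2 : U 2 = 0 := (mul_eq_zero.1 h3).resolve_right h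
  have e1 : U 1 = 0 := (mul_eq_zero.1 h4).resolve_right h
  have e0 : U 0 = 0 := by
    rw [e1, e2] at ha
    linarith
  funext i
  fin_cases i
  · exact e0
  · exact e1
  · exact e2

/-- A functional which is nonnegative at a point which is deep in the configuration is positive at `D` points. -/
theorem deep_pos {n D : ℕ} (hn : 3 * D ≤ n) {x y : ℕ → ℝ} {q : ℝ × ℝ} (hq : Deep D x y q) (U : Fin 3 → ℝ) (hU : U ≠ 0)
    (h0 : 0 ≤ U 0 + U 1 * q.1 + U 2 * q.2) :
    D ≤ (univ.filter fun i : Fin n => 0 < fe (fun a : Fin n => x a) (fun a : Fin n => y a) U i).card := by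
  have key : ∀ k < D, ∃ i, i < n ∧ i % D = k ∧ 0 < U 0 + U 1 * x i + U 2 * y i := by
    intro k hk
    by_contra hcon
    push Not at hcon
    obtain ⟨h1, h2, h3, h4⟩ := hq k hk
    have ha := hcon (D + k) (by omega) (by rw [Nat.add_mod_left, Nat.mod_eq_of_lt hk])
    have hb := hcon k (by omega) (Nat.mod_eq_of_lt hk)
    have hg := hcon (2 * D + k) (by omega) (by
      rw [Nat.mul_comm, Nat.mul_add_mod, Nat.mod_eq_of_lt hk])
    have hid : dq x y k (2 * D + k) q * (U 0 + U 1 * x (D + k) + U 2 * y (D + k)) +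
        dq x y (2 * D + k) (D + k) q * (U 0 + U 1 * x k + U 2 * y k) +
        dq x y (D + k) k q * (U 0 + U 1 * x (2 * D + k) + U 2 * y (2 * D + k)) =
        dt x y (D + k) k (2 * D + k) * (U 0 + U 1 * q.1 + U 2 * q.2) := by
      unfold dq dt
      ring
    have t1 : dq x y k (2 * D + k) q * (U 0 + U 1 * x (D + k) + U 2 * y (D + k)) ≤ 0 := mul_nonpos_of_nonneg_of_nonpos h3.le ha
    have t2 : dq x y (2 * D + k) (D + k) q * (U 0 + U 1 * x k + U 2 * y k) ≤ 0 := mul_nonpos_of_nonneg_of_nonpos h4.le hb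
    have t3 : dq x y (D + k) k q * (U 0 + U 1 * x (2 * D + k) + U 2 * y (2 * D + k)) ≤ 0 :=
      mul_nonpos_of_nonneg_of_nonpos h2.le hg
    have t4 : 0 ≤ dt x y (D + k) k (2 * D + k) * (U 0 + U 1 * q.1 + U 2 * q.2) := mul_nonneg h1.le h0
    have z1 : dq x y k (2 * D + k) q * (U 0 + U 1 * x (D + k) + U 2 * y (D + k)) = 0 := by linarith
    have z2 : dq x y (2 * D + k) (D + k) q * (U 0 + U 1 * x k + U 2 * y k) = 0 := by linarith
    have z3 : dq x y (D + k) k q * (U 0 + U 1 * x (2 * D + k) + U 2 * y (2 * D + k)) = 0 := by linarith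
    exact hU (fe_tri (X := x) (Y := y) h1.ne' ((mul_eq_zero.1 z1).resolve_left h3.ne')
      ((mul_eq_zero.1 z2).resolve_left h4.ne') ((mul_eq_zero.1 z3).resolve_left h2.ne'))
  have hsurj : Set.SurjOn (fun i : Fin n => (i : ℕ) % D)
      (univ.filter fun i : Fin n => 0 < fe (fun a : Fin n => x a) (fun a : Fin n => y a) U i : Finset (Fin n)) (range D : Finset ℕ) := by
    intro k hk
    rw [Finset.mem_coe, Finset.mem_range] at hk
    obtain ⟨i, hi, hik, hpos⟩ := key k hk
    refine ⟨⟨i, hi⟩, ?_, hik⟩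
    rw [Finset.mem_coe, Finset.mem_filter]
    exact ⟨Finset.mem_univ _, hpos⟩
  have := Finset.card_le_card_of_surjOn _ hsurj
  rwa [Finset.card_range] at this

/-- A quadratic function with too many changes of sign is zero. -/
theorem quad_zero {A B C a b c d : ℝ} (hab : a < b) (hbc : b < c) (hcd : c < d) (ha : A + B * a + C * a ^ 2 ≤ 0)
    (hb : 0 ≤ A + B * b + C * b ^ 2) (hc : A + B * c + C * c ^ 2 ≤ 0) (hd : 0 ≤ A + B * d + C * d ^ 2) :
    A = 0 ∧ B = 0 ∧ C = 0 := by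
  have hid : (A + B * a + C * a ^ 2) * ((c - b) * (d - b) * (d - c)) - (A + B * b + C * b ^ 2) * ((c - a) * (d - a) * (d - c)) +
      (A + B * c + C * c ^ 2) * ((b - a) * (d - a) * (d - b)) - (A + B * d + C * d ^ 2) * ((b - a) * (c - a) * (c - b)) = 0 := by
    ring
  have p1 : 0 < (c - b) * (d - b) * (d - c) := by
    apply mul_pos (mul_pos _ _) <;> linarith
  have p2 : 0 < (c - a) * (d - a) * (d - c) := by
    apply mul_pos (mul_pos _ _) <;> linarith
  have p3 : 0 < (b - a) * (d - a) * (d - b) := by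
    apply mul_pos (mul_pos _ _) <;> linarith
  have p4 : 0 < (b - a) * (c - a) * (c - b) := by
    apply mul_pos (mul_pos _ _) <;> linarith
  have t1 : (A + B * a + C * a ^ 2) * ((c - b) * (d - b) * (d - c)) ≤ 0 := mul_nonpos_of_nonpos_of_nonneg ha p1.le
  have t2 : 0 ≤ (A + B * b + C * b ^ 2) * ((c - a) * (d - a) * (d - c)) := mul_nonneg hb p2.le
  have t3 : (A + B * c + C * c ^ 2) * ((b - a) * (d - a) * (d - b)) ≤ 0 := mul_nonpos_of_nonpos_of_nonneg hc p3.le
  have t4 : 0 ≤ (A + B * d + C * d ^ 2) * ((b - a) * (c - a) * (c - b)) := mul_nonneg hd p4.le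
  have z1 : A + B * a + C * a ^ 2 = 0 := (mul_eq_zero.1 (by linarith)).resolve_right p1.ne'
  have z2 : A + B * b + C * b ^ 2 = 0 := (mul_eq_zero.1 (by linarith)).resolve_right p2.ne'
  have z3 : A + B * c + C * c ^ 2 = 0 := (mul_eq_zero.1 (by linarith)).resolve_right p3.ne'
  have e1 : (b - a) * (B + C * (a + b)) = 0 := by linarith
  have e2 : (c - a) * (B + C * (a + c)) = 0 := by linarith
  have f1 : B + C * (a + b) = 0 := (mul_eq_zero.1 e1).resolve_left (sub_ne_zero.2 hab.ne')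
  have f2 : B + C * (a + c) = 0 := (mul_eq_zero.1 e2).resolve_left (sub_ne_zero.2 (hab.trans hbc).ne')
  have f3 : C * (c - b) = 0 := by linarith
  have hC : C = 0 := (mul_eq_zero.1 f3).resolve_right (sub_ne_zero.2 hbc.ne')
  have hB : B = 0 := by
    rw [hC] at f1
    linarith
  have hA : A = 0 := by
    rw [hB, hC] at z1
    linarith
  exact ⟨hA, hB, hC⟩

/-- All but at most one of the pairs are on the positive side. -/
theorem pairs_pos {N : ℕ} (θ : ℕ → ℝ) (hθ : ∀ i t, i < t → t < 2 * N → θ i < θ t) (A B C : ℝ) (hne : ¬ (A = 0 ∧ B = 0 ∧ C = 0)) :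
    N ≤ (univ.filter fun t : Fin (2 * N) => 0 < (-1) ^ (t : ℕ) * (A + B * θ t + C * θ t ^ 2)).card + 1 := by
  classical
  set bad : ℕ → Prop := fun i => A + B * θ (2 * i) + C * θ (2 * i) ^ 2 ≤ 0 ∧ 0 ≤ A + B * θ (2 * i + 1) + C * θ (2 * i + 1) ^ 2 with hbad
  have h1 : ((range N).filter bad).card ≤ 1 := by
    rw [Finset.card_le_one]
    have key : ∀ i j, i < j → j < N → bad i → bad j → False := by
      intro i j hij hj hi1 hj1
      exact hne (quad_zero (hθ (2 * i) (2 * i + 1) (by omega) (by omega)) (hθ (2 * i + 1) (2 * j) (by omega) (by omega))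
        (hθ (2 * j) (2 * j + 1) (by omega) (by omega)) hi1.1 hi1.2 hj1.1 hj1.2)
    intro i hi j hj
    rw [Finset.mem_filter, Finset.mem_range] at hi hj
    rcases lt_trichotomy i j with h | h | h
    · exact (key i j h hj.1 hi.2 hj.2).elim
    · exact h
    · exact (key j i h hi.1 hj.2 hi.2).elim
  have h2 := Finset.card_filter_add_card_filter_not (s := range N) bad
  rw [Finset.card_range] at h2
  have hsurj : Set.SurjOn (fun t : Fin (2 * N) => (t : ℕ) / 2)
      (univ.filter fun t : Fin (2 * N) => 0 < (-1) ^ (t : ℕ) * (A + B * θ t + C * θ t ^ 2) : Finset (Fin (2 * N)))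
      ((range N).filter fun i => ¬ bad i : Finset ℕ) := by
    intro i hi
    rw [Finset.mem_coe, Finset.mem_filter, Finset.mem_range] at hi
    obtain ⟨hi, hi2⟩ := hi
    simp only [hbad, not_and_or, not_le] at hi2
    rcases hi2 with h | h
    · refine ⟨⟨2 * i, by omega⟩, ?_, ?_⟩
      · rw [Finset.mem_coe, Finset.mem_filter]
        refine ⟨Finset.mem_univ _, ?_⟩
        rw [Even.neg_one_pow (by exact ⟨i, by ring⟩), one_mul]
        exact h
      · show 2 * i / 2 = i
        omega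
    · refine ⟨⟨2 * i + 1, by omega⟩, ?_, ?_⟩
      · rw [Finset.mem_coe, Finset.mem_filter]
        refine ⟨Finset.mem_univ _, ?_⟩
        rw [Odd.neg_one_pow (by exact ⟨i, rfl⟩)]
        show 0 < -1 * (A + B * θ (2 * i + 1) + C * θ (2 * i + 1) ^ 2)
        linarith
      · show (2 * i + 1) / 2 = i
        omega
  have h3 := Finset.card_le_card_of_surjOn _ hsurj
  omega

/-- the number of the odd indices -/
theorem odd_card (N : ℕ) : (univ.filter fun t : Fin (2 * N) => Odd (t : ℕ)).card = N := by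
  rw [Finset.card_filter, Fin.sum_univ_eq_sum_range (fun t => if Odd t then 1 else 0) (2 * N)]
  induction N with
  | zero => simp
  | succ N ih =>
    rw [show 2 * (N + 1) = 2 * N + 1 + 1 by ring, Finset.sum_range_succ, Finset.sum_range_succ, ih,
      if_neg (by rw [Nat.not_odd_iff_even]; exact ⟨N, by ring⟩), if_pos ⟨N, rfl⟩]

section

variable {n N : ℕ}

/-- the signs -/
def sg (n N : ℕ) : Fin n ⊕ Fin (2 * N) → ℝ := Sum.elim (fun _ => 1) (fun t => (-1) ^ (t : ℕ))

/-- the Gale vectors -/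
def GV (n N : ℕ) (x y : ℕ → ℝ) (z : ℝ × ℝ) (θ : ℕ → ℝ) (j : Fin n ⊕ Fin (2 * N)) : Fin 3 → ℝ :=
  sg n N j • ![1, ex n (2 * N) x z θ j, ey n (2 * N) y z θ j]

theorem GV_dot (x y : ℕ → ℝ) (z : ℝ × ℝ) (θ : ℕ → ℝ) (j : Fin n ⊕ Fin (2 * N)) (U : Fin 3 → ℝ) :
    GV n N x y z θ j ⬝ᵥ U = sg n N j * fe (ex n (2 * N) x z θ) (ey n (2 * N) y z θ) U j := by
  unfold GV fe
  rw [smul_dotProduct, smul_eq_mul]
  congr 1
  unfold dotProduct
  rw [Fin.sum_univ_three]
  simp
  ring

theorem sg_ne (j : Fin n ⊕ Fin (2 * N)) : sg n N j ≠ 0 := by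
  rcases j with i | t
  · exact one_ne_zero
  · exact pow_ne_zero _ (by norm_num)

/-- the number of the vectors on the positive side -/
noncomputable def pos (n N : ℕ) (x y : ℕ → ℝ) (z : ℝ × ℝ) (θ : ℕ → ℝ) (U : Fin 3 → ℝ) : ℕ :=
  (univ.filter fun j : Fin n ⊕ Fin (2 * N) => 0 < GV n N x y z θ j ⬝ᵥ U).card

/-- the number of the points of the plane on the positive side -/
noncomputable def posl (n : ℕ) (x y : ℕ → ℝ) (U : Fin 3 → ℝ) : ℕ :=
  (univ.filter fun i : Fin n => 0 < fe (fun a : Fin n => x a) (fun a : Fin n => y a) U i).card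

theorem pos_eq (x y : ℕ → ℝ) (z : ℝ × ℝ) (θ : ℕ → ℝ) (U : Fin 3 → ℝ) :
    pos n N x y z θ U = posl n x y U +
      (univ.filter fun t : Fin (2 * N) => 0 < (-1) ^ (t : ℕ) * fe (ex n (2 * N) x z θ) (ey n (2 * N) y z θ) U (Sum.inr t)).card := by
  unfold pos posl
  rw [Finset.card_filter, Fintype.sum_sum_type, Finset.card_filter, Finset.card_filter]
  congr 1
  · apply Finset.sum_congr rfl
    intro i _
    rw [GV_dot]
    have : sg n N (Sum.inl i) = 1 := rfl
    rw [this, one_mul]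
    rfl
  · apply Finset.sum_congr rfl
    intro t _
    rw [GV_dot]
    rfl

theorem fe_inr (x y : ℕ → ℝ) (z : ℝ × ℝ) (θ : ℕ → ℝ) (U : Fin 3 → ℝ) (t : Fin (2 * N)) :
    fe (ex n (2 * N) x z θ) (ey n (2 * N) y z θ) U (Sum.inr t) =
      U 0 + U 1 * (arc z (θ t)).1 + U 2 * (arc z (θ t)).2 := rfl

/-- the dichotomy -/
theorem dicho {D : ℕ} (hn : 3 * D ≤ n) {x y : ℕ → ℝ} {z : ℝ × ℝ} {θ : ℕ → ℝ}
    (hθ : ∀ i t, i < t → t < 2 * N → θ i < θ t) (hdeep : ∀ t < 2 * N, Deep D x y (arc z (θ t))) (U : Fin 3 → ℝ) (hU : U ≠ 0) :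
    (∀ t, fe (ex n (2 * N) x z θ) (ey n (2 * N) y z θ) U (Sum.inr t) < 0) ∨
      (D ≤ posl n x y U ∧ D + N ≤ pos n N x y z θ U + 1) := by
  by_cases h : ∀ t, fe (ex n (2 * N) x z θ) (ey n (2 * N) y z θ) U (Sum.inr t) < 0
  · exact Or.inl h
  · right
    push Not at h
    obtain ⟨t, ht⟩ := h
    rw [fe_inr] at ht
    have h1 : D ≤ posl n x y U := deep_pos hn (hdeep t t.2) U hU ht
    refine ⟨h1, ?_⟩
    rw [pos_eq]
    have h2 := pairs_pos (N := N) θ hθ (U 0 + U 1 * z.1 + U 2 * z.2) (U 1) (U 2) (by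
      rintro ⟨h3, h4, h5⟩
      apply hU
      funext i
      fin_cases i
      · rw [h4, h5] at h3
        show U 0 = 0
        linarith
      · exact h4
      · exact h5)
    have h3 : (univ.filter fun t : Fin (2 * N) => 0 < (-1) ^ (t : ℕ) * (U 0 + U 1 * z.1 + U 2 * z.2 + U 1 * θ t + U 2 * θ t ^ 2)) =
        (univ.filter fun t : Fin (2 * N) => 0 < (-1) ^ (t : ℕ) * fe (ex n (2 * N) x z θ) (ey n (2 * N) y z θ) U (Sum.inr t)) := by
      apply Finset.filter_congr
      intro t _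
      rw [fe_inr]
      have e : U 0 + U 1 * (arc z (θ t)).1 + U 2 * (arc z (θ t)).2 = U 0 + U 1 * z.1 + U 2 * z.2 + U 1 * θ t + U 2 * θ t ^ 2 := by
        unfold arc
        ring
      rw [e]
    rw [h3] at h2
    omega

/-- the case in which the arc is on the negative side -/
theorem pos_neg {x y : ℕ → ℝ} {z : ℝ × ℝ} {θ : ℕ → ℝ} {U : Fin 3 → ℝ}
    (h : ∀ t, fe (ex n (2 * N) x z θ) (ey n (2 * N) y z θ) U (Sum.inr t) < 0) :
    pos n N x y z θ U = posl n x y U + N := by
  rw [pos_eq]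
  congr 1
  conv_rhs => rw [← odd_card N]
  congr 1
  apply Finset.filter_congr
  intro t _
  have ht := h t
  rcases Nat.even_or_odd (t : ℕ) with h1 | h1
  · rw [h1.neg_one_pow, one_mul]
    constructor
    · intro h2
      linarith
    · intro h2
      rw [← Nat.not_even_iff_odd] at h2
      exact absurd h1 h2
  · rw [h1.neg_one_pow]
    constructor
    · exact fun _ => h1
    · intro _
      linarith

end

end Pool.Agent.RIS
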