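import Mathlib

/-!
# Initial segments of Radon vectors (MP_c130bd_co): ranks and recursive choices
-/

set_option autoImplicit false

namespace Pool.Agent.RIS

open Finset

/-- a finite set of reals splits into the `L` smallest elements and the others -/
theorem exists_low (S : Finset ℝ) (L : ℕ) (hL : L ≤ S.card) :
    ∃ lo hi : Finset ℝ, lo ∪ hi = S ∧ Disjoint lo hi ∧ lo.card = L ∧ ∀ x ∈ lo, ∀ y ∈ hi, x < y := by
  induction S using Finset.induction_on_max generalizing L with
  | empty =>
    refine ⟨∅, ∅, by simp, by simp, ?_, by simp⟩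
    simp at hL
    simp [hL]
  | insert a S ha ih =>
    have haS : a ∉ S := fun h => lt_irrefl a (ha a h)
    rw [Finset.card_insert_of_notMem haS] at hL
    rcases Nat.lt_or_ge S.card L with h | h
    · refine ⟨insert a S, ∅, by simp, by simp, ?_, by simp⟩
      rw [Finset.card_insert_of_notMem haS]
      omega
    · obtain ⟨lo, hi, h1, h2, h3, h4⟩ := ih L h
      have hlo : lo ⊆ S := h1 ▸ Finset.subset_union_left
      refine ⟨lo, insert a hi, ?_, ?_, h3, ?_⟩
      · rw [Finset.union_insert, h1]
      · rw [Finset.disjoint_insert_right]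
        exact ⟨fun h => haS (hlo h), h2⟩
      · intro x hx y hy
        rcases Finset.mem_insert.1 hy with rfl | hy
        · exact ha x (hlo hx)
        · exact h4 x hx y hy

/-- a real with a prescribed number of smaller elements of a finite set -/
theorem exists_rank (S : Finset ℝ) (L : ℕ) (hL : L ≤ S.card) :
    ∃ z, z ∉ S ∧ (S.filter (· < z)).card = L := by
  obtain ⟨lo, hi, h1, h2, h3, h4⟩ := exists_low S L hL
  obtain ⟨z, hz1, hz2⟩ := Order.exists_between_finsets lo hi h4
  refine ⟨z, ?_, ?_⟩
  · rw [← h1, Finset.mem_union]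
    rintro (h | h)
    · exact lt_irrefl _ (hz1 z h)
    · exact lt_irrefl _ (hz2 z h)
  · rw [← h3]
    congr 1
    ext x
    rw [Finset.mem_filter, ← h1, Finset.mem_union]
    constructor
    · rintro ⟨h | h, h5⟩
      · exact h
      · exact absurd h5 (hz2 x h).le.not_gt
    · exact fun h => ⟨Or.inl h, hz1 x h⟩

/-- a sequence whose members satisfy conditions on the previous members -/
theorem exists_seq (P : ℕ → (ℕ → ℝ) → ℝ → Prop)
    (hP : ∀ l f g z, (∀ i < l, f i = g i) → P l f z → P l g z)
    (hex : ∀ n f, (∀ l < n, P l f (f l)) → ∃ z, P n f z) (n : ℕ) :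
    ∃ f : ℕ → ℝ, ∀ l < n, P l f (f l) := by
  induction n with
  | zero => exact ⟨fun _ => 0, fun l hl => absurd hl (Nat.not_lt_zero l)⟩
  | succ n ih =>
    obtain ⟨f, hf⟩ := ih
    obtain ⟨z, hz⟩ := hex n f hf
    refine ⟨Function.update f n z, ?_⟩
    intro l hl
    rcases Nat.lt_succ_iff_lt_or_eq.1 hl with h | rfl
    · rw [Function.update_of_ne h.ne]
      refine hP l f _ _ ?_ (hf l h)
      intro i hi
      rw [Function.update_of_ne (by omega)]
    · rw [Function.update_self]
      refine hP l f _ _ ?_ hz
      intro i hi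
      rw [Function.update_of_ne (by omega)]

/-- the ranks of the first `j` members -/
noncomputable def rk (f : ℕ → ℝ) (j i : ℕ) : ℕ := ((range j).filter fun l => f l < f i).card

theorem rk_lt {f : ℕ → ℝ} {j i : ℕ} (hi : i < j) : rk f j i < j := by
  unfold rk
  have h : ((range j).filter fun l => f l < f i) ⊂ range j := by
    refine Finset.filter_ssubset.2 ⟨i, Finset.mem_range.2 hi, lt_irrefl _⟩
  have := Finset.card_lt_card h
  rwa [Finset.card_range] at this

theorem rk_mono {f : ℕ → ℝ} {j i i' : ℕ} (hi : i < j) (h : f i < f i') : rk f j i < rk f j i' := by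
  unfold rk
  apply Finset.card_lt_card
  refine Finset.ssubset_iff_subset_ne.2 ⟨?_, ?_⟩
  · intro l hl
    rw [Finset.mem_filter] at hl ⊢
    exact ⟨hl.1, hl.2.trans h⟩
  · intro h1
    have : i ∈ (range j).filter fun l => f l < f i' := Finset.mem_filter.2 ⟨Finset.mem_range.2 hi, h⟩
    rw [← h1, Finset.mem_filter] at this
    exact lt_irrefl _ this.2

/-- the ranks of the first `j` members are `0, …, j - 1` -/
theorem card_rk {f : ℕ → ℝ} {j : ℕ} (hf : ∀ a < j, ∀ b < j, a ≠ b → f a ≠ f b) (Q : ℕ → Prop) [DecidablePred Q] :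
    ((range j).filter fun i => Q (rk f j i)).card = ((range j).filter Q).card := by
  have hinj : Set.InjOn (rk f j) (range j : Finset ℕ) := by
    intro a ha b hb hab
    rw [Finset.mem_coe, Finset.mem_range] at ha hb
    by_contra hne
    rcases lt_or_gt_of_ne (hf a ha b hb hne) with h | h
    · exact (rk_mono ha h).ne hab
    · exact (rk_mono hb h).ne' hab
  have himg : (range j).image (rk f j) = range j := by
    apply Finset.eq_of_subset_of_card_le
    · intro r hr
      obtain ⟨i, hi, rfl⟩ := Finset.mem_image.1 hr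
      exact Finset.mem_range.2 (rk_lt (Finset.mem_range.1 hi))
    · rw [Finset.card_image_of_injOn hinj]
  conv_rhs => rw [← himg, Finset.filter_image]
  rw [Finset.card_image_of_injOn]
  exact hinj.mono (by
    intro a ha
    exact Finset.mem_coe.2 (Finset.mem_filter.1 (Finset.mem_coe.1 ha)).1)

/-- `f i < f j` in terms of the rank of `i` -/
theorem lt_iff_rk {f : ℕ → ℝ} {j i : ℕ} (hi : i < j) (hne : ∀ l < j, f l ≠ f j) :
    f i < f j ↔ rk f j i < rk f j j := by
  constructor
  · intro h
    exact rk_mono hi h
  · intro h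
    by_contra h1
    have h2 : f j < f i := lt_of_le_of_ne (not_lt.1 h1) (hne i hi).symm
    have : rk f j j ≤ rk f j i := by
      unfold rk
      apply Finset.card_le_card
      intro l hl
      rw [Finset.mem_filter] at hl ⊢
      exact ⟨hl.1, hl.2.trans h2⟩
    omega

end Pool.Agent.RIS
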