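import Pool.Agent.MP_c130bd_co.RIS.Rank

/-!
# Initial segments of Radon vectors (MP_c130bd_co): the planar configurations
-/

set_option autoImplicit false

namespace Pool.Agent.RIS

open Finset

/-- the orientation of three points -/
def dt {ι : Type*} (x y : ι → ℝ) (a b c : ι) : ℝ :=
  (x b - x a) * (y c - y a) - (y b - y a) * (x c - x a)

/-- The planar configurations: `M` points which move far to the left with arbitrary heights, then points which move far up with arbitrary abscissas;
`L` gives the ranks of the heights and of the abscissas among the previous ones. -/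
structure Cfg (n M : ℕ) (L : ℕ → ℕ) (x y : ℕ → ℝ) : Prop where
  ne : ∀ a < n, ∀ b < n, a ≠ b → x a ≠ x b
  neT : ∀ a < M, ∀ b < M, a ≠ b → y a ≠ y b
  xT : ∀ a b, a < b → b < M → x b < x a
  rT : ∀ b < M, rk y b b = L b
  rG : ∀ m < n, M ≤ m → rk x m m = L m
  sT : ∀ a b l, a < b → b < l → l < M → 0 < (y b - y a) * dt x y a b l
  sG : ∀ a b l, a < b → b < l → l < n → M ≤ l → 0 < (x b - x a) * dt x y a b l

theorem pos_aux {u v w : ℝ} (hu : u ≠ 0) (h : |v| < |u| * w) : 0 < u * (v + u * w) := by
  have h1 : 0 < |u| := abs_pos.2 hu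
  have h2 : -(|u| * |v|) ≤ u * v := by
    rw [← abs_mul]
    exact neg_abs_le _
  have h3 : |u| * |v| < |u| * (|u| * w) := mul_lt_mul_of_pos_left h h1
  have h4 : |u| * (|u| * w) = u * (u * w) := by
    rw [← mul_assoc, abs_mul_abs_self, mul_assoc]
  nlinarith

/-- the rank condition -/
theorem rank_step (L : ℕ → ℕ) (b : ℕ) (f : ℕ → ℝ) (hf : ∀ i < b, ∀ j < b, i ≠ j → f i ≠ f j) :
    ∃ z, (∀ l < b, f l ≠ z) ∧ ((range b).filter fun l => f l < z).card = min (L b) b := by
  have hinj : Set.InjOn f (range b : Finset ℕ) := by
    intro i hi j hj hij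
    rw [Finset.mem_coe, Finset.mem_range] at hi hj
    by_contra hne
    exact hf i hi j hj hne hij
  have hc : ((range b).image f).card = b := by
    rw [Finset.card_image_of_injOn hinj, Finset.card_range]
  obtain ⟨z, hz1, hz2⟩ := exists_rank ((range b).image f) (min (L b) b) (by rw [hc]; exact min_le_right _ _)
  refine ⟨z, ?_, ?_⟩
  · intro l hl h
    exact hz1 (Finset.mem_image.2 ⟨l, Finset.mem_range.2 hl, h⟩)
  · rw [← hz2, Finset.filter_image, Finset.card_image_of_injOn]
    exact hinj.mono (by
      intro a ha
      exact Finset.mem_coe.2 (Finset.mem_filter.1 (Finset.mem_coe.1 ha)).1)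

theorem exists_cfg (n M : ℕ) (hM : M ≤ n) (L : ℕ → ℕ) (hL : ∀ b < n, L b ≤ b) : ∃ x y, Cfg n M L x y := by
  -- heights of the first part
  obtain ⟨σ, hσ⟩ := exists_seq (fun b f z => (∀ l < b, f l ≠ z) ∧ ((range b).filter fun l => f l < z).card = min (L b) b)
    (by
      intro l f g z h ⟨h1, h2⟩
      refine ⟨fun i hi => by rw [← h i hi]; exact h1 i hi, ?_⟩
      rw [← h2]
      congr 1
      apply Finset.filter_congr
      intro i hi
      rw [h i (Finset.mem_range.1 hi)])
    (by
      intro b f hf
      apply rank_step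
      intro i hi j hj hij
      rcases lt_or_gt_of_ne hij with h | h
      · exact (hf j hj).1 i h
      · exact ((hf i hi).1 j h).symm) M
  have hσne : ∀ a < M, ∀ b < M, a ≠ b → σ a ≠ σ b := by
    intro a ha b hb hab
    rcases lt_or_gt_of_ne hab with h | h
    · exact (hσ b hb).1 a h
    · exact ((hσ a ha).1 b h).symm
  -- abscissas
  obtain ⟨x, hx⟩ := exists_seq (fun l f z => (∀ i < l, f i ≠ z) ∧
      (l < M → (∀ i < l, z < f i) ∧ ∀ a < l, ∀ b < l, σ b - σ a ≠ 0 → |(f b - f a) * (σ l - σ a)| < |σ b - σ a| * (f a - z)) ∧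
      (M ≤ l → ((range l).filter fun i => f i < z).card = min (L l) l))
    (by
      intro l f g z h ⟨h1, h2, h3⟩
      refine ⟨fun i hi => by rw [← h i hi]; exact h1 i hi, ?_, ?_⟩
      · intro hl
        obtain ⟨h4, h5⟩ := h2 hl
        refine ⟨fun i hi => by rw [← h i hi]; exact h4 i hi, ?_⟩
        intro a ha b hb hab
        rw [← h a ha, ← h b hb]
        exact h5 a ha b hb hab
      · intro hl
        rw [← h3 hl]
        congr 1
        apply Finset.filter_congr
        intro i hi
        rw [h i (Finset.mem_range.1 hi)])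
    (by
      intro l f hf
      have hfne : ∀ i < l, ∀ j < l, i ≠ j → f i ≠ f j := by
        intro i hi j hj hij
        rcases lt_or_gt_of_ne hij with h | h
        · exact (hf j hj).1 i h
        · exact ((hf i hi).1 j h).symm
      rcases Nat.lt_or_ge l M with hl | hl
      · have h1 : ∀ᶠ z in Filter.atBot, ∀ i ∈ range l, z < f i := by
          rw [Filter.eventually_all_finset]
          intro i _
          exact Filter.eventually_lt_atBot _
        have h2 : ∀ᶠ z in Filter.atBot, ∀ a ∈ range l, ∀ b ∈ range l, σ b - σ a ≠ 0 →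
            |(f b - f a) * (σ l - σ a)| < |σ b - σ a| * (f a - z) := by
          rw [Filter.eventually_all_finset]
          intro a _
          rw [Filter.eventually_all_finset]
          intro b _
          by_cases h0 : σ b - σ a = 0
          · exact Filter.Eventually.of_forall fun z h => absurd h0 h
          · have hpos : 0 < |σ b - σ a| := abs_pos.2 h0
            filter_upwards [Filter.eventually_lt_atBot (f a - |(f b - f a) * (σ l - σ a)| / |σ b - σ a|)] with z hz _
            have : |(f b - f a) * (σ l - σ a)| / |σ b - σ a| < f a - z := by linarith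
            rw [div_lt_iff₀ hpos] at this
            linarith
        obtain ⟨z, hz1, hz2⟩ := (h1.and h2).exists
        refine ⟨z, fun i hi => (hz1 i (Finset.mem_range.2 hi)).ne', fun _ => ⟨fun i hi => hz1 i (Finset.mem_range.2 hi), ?_⟩, ?_⟩
        · intro a ha b hb
          exact hz2 a (Finset.mem_range.2 ha) b (Finset.mem_range.2 hb)
        · intro h
          omega
      · obtain ⟨z, hz1, hz2⟩ := rank_step L l f hfne
        exact ⟨z, hz1, fun h => by omega, fun _ => hz2⟩) n
  have hxne : ∀ a < n, ∀ b < n, a ≠ b → x a ≠ x b := by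
    intro a ha b hb hab
    rcases lt_or_gt_of_ne hab with h | h
    · exact (hx b hb).1 a h
    · exact ((hx a ha).1 b h).symm
  -- heights
  obtain ⟨y, hy⟩ := exists_seq (fun l f z => (l < M → z = σ l) ∧
      (M ≤ l → ∀ a < l, ∀ b < l, x b - x a ≠ 0 → |-((f b - f a) * (x l - x a))| < |x b - x a| * (z - f a)))
    (by
      intro l f g z h ⟨h1, h2⟩
      refine ⟨h1, ?_⟩
      intro hl a ha b hb hab
      rw [← h a ha, ← h b hb]
      exact h2 hl a ha b hb hab)
    (by
      intro l f _
      rcases Nat.lt_or_ge l M with hl | hl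
      · exact ⟨σ l, fun _ => rfl, fun h => by omega⟩
      · have h2 : ∀ᶠ z in Filter.atTop, ∀ a ∈ range l, ∀ b ∈ range l, x b - x a ≠ 0 →
            |-((f b - f a) * (x l - x a))| < |x b - x a| * (z - f a) := by
          rw [Filter.eventually_all_finset]
          intro a _
          rw [Filter.eventually_all_finset]
          intro b _
          by_cases h0 : x b - x a = 0
          · exact Filter.Eventually.of_forall fun z h => absurd h0 h
          · have hpos : 0 < |x b - x a| := abs_pos.2 h0
            filter_upwards [Filter.eventually_gt_atTop (f a + |-((f b - f a) * (x l - x a))| / |x b - x a|)] with z hz _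
            have : |-((f b - f a) * (x l - x a))| / |x b - x a| < z - f a := by linarith
            rw [div_lt_iff₀ hpos] at this
            linarith
        obtain ⟨z, hz⟩ := h2.exists
        refine ⟨z, fun h => by omega, fun _ a ha b hb => hz a (Finset.mem_range.2 ha) b (Finset.mem_range.2 hb)⟩) n
  have hyσ : ∀ a < M, y a = σ a := fun a ha => (hy a (by omega)).1 ha
  refine ⟨x, y, hxne, ?_, ?_, ?_, ?_, ?_, ?_⟩
  · intro a ha b hb hab
    rw [hyσ a ha, hyσ b hb]
    exact hσne a ha b hb hab
  · intro a b hab hb
    exact ((hx b (by omega)).2.1 hb).1 a hab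
  · intro b hb
    unfold rk
    have h1 := (hσ b hb).2
    rw [min_eq_left (hL b (by omega))] at h1
    rw [← h1]
    congr 1
    apply Finset.filter_congr
    intro l hl
    rw [Finset.mem_range] at hl
    rw [hyσ l (by omega), hyσ b hb]
  · intro m hm hMm
    have h1 := (hx m hm).2.2 hMm
    rw [min_eq_left (hL m hm)] at h1
    exact h1
  · intro a b l hab hbl hl
    have h1 := ((hx l (by omega)).2.1 hl).2 a (by omega) b hbl
    rw [← hyσ a (by omega), ← hyσ b (by omega), ← hyσ l hl] at h1
    have h0 : y b - y a ≠ 0 := by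
      rw [hyσ a (by omega), hyσ b (by omega)]
      exact sub_ne_zero.2 (hσne b (by omega) a (by omega) (by omega))
    have h2 := pos_aux h0 (h1 h0)
    have e : dt x y a b l = (x b - x a) * (y l - y a) + (y b - y a) * (x a - x l) := by
      unfold dt
      ring
    rw [e]
    exact h2
  · intro a b l hab hbl hl hMl
    have h1 := (hy l hl).2 hMl a (by omega) b hbl
    have h0 : x b - x a ≠ 0 := sub_ne_zero.2 (hxne b (by omega) a (by omega) (by omega))
    have h2 := pos_aux h0 (h1 h0)
    have e : dt x y a b l = -((y b - y a) * (x l - x a)) + (x b - x a) * (y l - y a) := by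
      unfold dt
      ring
    rw [e]
    exact h2

end Pool.Agent.RIS
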