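import Pool.Agent.MP_c130bd_co.RIS.Four

/-!
# Initial segments of Radon vectors (MP_c130bd_co): `s = d + 4`, the vertices and the weights
-/

set_option autoImplicit false

namespace Pool.Agent.RIS

open Finset Pool.Agent.RVM

theorem fe_prop {ι : Type*} {X Y : ι → ℝ} {U : Fin 3 → ℝ} {a b : ι} (ha : fe X Y U a = 0) (hb : fe X Y U b = 0) (j : ι) :
    fe X Y U j * (X b - X a) = U 2 * dt X Y a b j := by
  unfold fe at ha hb ⊢
  unfold dt
  linear_combination (X b - X j) * ha + (X j - X a) * hb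

theorem exists_normal {ι : Type*} {X Y : ι → ℝ}
    (hne : ∀ a b c : ι, a ≠ b → a ≠ c → b ≠ c → dt X Y a b c ≠ 0) {a b : ι} (hab : a ≠ b) :
    ∃ U : Fin 3 → ℝ, ∀ j, fe X Y U j = 0 ↔ (j = a ∨ j = b) := by
  refine ⟨![X a * Y b - Y a * X b, Y a - Y b, X b - X a], fun j => ?_⟩
  have e : fe X Y ![X a * Y b - Y a * X b, Y a - Y b, X b - X a] j = dt X Y a b j := by
    unfold fe dt
    simp
    ring
  rw [e]
  constructor
  · intro h
    by_contra h1
    push Not at h1
    exact hne a b j hab h1.1.symm h1.2.symm h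
  · rintro (rfl | rfl)
    · exact dt_self _ _ _ _
    · exact dt_self' _ _ _ _

section

variable {n N D M : ℕ} {L : ℕ → ℕ} {x y : ℕ → ℝ} {z : ℝ × ℝ} {θ : ℕ → ℝ}

theorem exists_normals (hgen : ∀ a b c, a ≠ b → a ≠ c → b ≠ c → dt (ex n (2 * N) x z θ) (ey n (2 * N) y z θ) a b c ≠ 0) :
    ∃ Y : Finset (Fin n ⊕ Fin (2 * N)) → Fin 3 → ℝ, ∀ X : Finset (Fin n ⊕ Fin (2 * N)), X.card + 1 = 3 →
      ∀ j, GV n N x y z θ j ⬝ᵥ Y X = 0 ↔ j ∈ X := by
  have hex : ∀ X : Finset (Fin n ⊕ Fin (2 * N)), ∃ U : Fin 3 → ℝ, X.card + 1 = 3 → ∀ j, GV n N x y z θ j ⬝ᵥ U = 0 ↔ j ∈ X := by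
    intro X
    by_cases hX : X.card + 1 = 3
    · obtain ⟨a, b, hab, rfl⟩ := Finset.card_eq_two.1 (by omega : X.card = 2)
      obtain ⟨U, hU⟩ := exists_normal hgen hab
      refine ⟨U, fun _ j => ?_⟩
      rw [GV_dot, mul_eq_zero, Finset.mem_insert, Finset.mem_singleton, ← hU j]
      exact ⟨fun h => h.resolve_left (sg_ne j), Or.inr⟩
    · exact ⟨0, fun h => absurd h hX⟩
  choose Y hY using hex
  exact ⟨Y, hY⟩

/-- the two sides -/
theorem pos_add (U : Fin 3 → ℝ) (X : Finset (Fin n ⊕ Fin (2 * N))) (hX : X.card = 2) (hU : ∀ j, GV n N x y z θ j ⬝ᵥ U = 0 ↔ j ∈ X) :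
    pos n N x y z θ U + pos n N x y z θ (-U) + 2 = n + 2 * N := by
  classical
  have h1 : (univ.filter fun j => 0 < GV n N x y z θ j ⬝ᵥ U) ∪ (univ.filter fun j => 0 < GV n N x y z θ j ⬝ᵥ (-U)) ∪ X = univ := by
    ext j
    simp only [Finset.mem_union, Finset.mem_filter, Finset.mem_univ, true_and, iff_true]
    rw [dotProduct_neg, ← hU j]
    rcases lt_trichotomy (GV n N x y z θ j ⬝ᵥ U) 0 with h | h | h
    · exact Or.inl (Or.inr (by linarith))
    · exact Or.inr h
    · exact Or.inl (Or.inl h)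
  have h2 : Disjoint (univ.filter fun j => 0 < GV n N x y z θ j ⬝ᵥ U) (univ.filter fun j => 0 < GV n N x y z θ j ⬝ᵥ (-U)) := by
    rw [Finset.disjoint_left]
    intro j hj hj'
    rw [Finset.mem_filter] at hj hj'
    rw [dotProduct_neg] at hj'
    linarith [hj.2, hj'.2]
  have h3 : Disjoint ((univ.filter fun j => 0 < GV n N x y z θ j ⬝ᵥ U) ∪ (univ.filter fun j => 0 < GV n N x y z θ j ⬝ᵥ (-U))) X := by
    rw [Finset.disjoint_right]
    intro j hj hj'
    rw [Finset.mem_union, Finset.mem_filter, Finset.mem_filter, dotProduct_neg, (hU j).2 hj] at hj'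
    rcases hj' with h | h
    · exact lt_irrefl _ h.2
    · rw [neg_zero] at h
      exact lt_irrefl _ h.2
  have h4 := Finset.card_union_of_disjoint h3
  rw [Finset.card_union_of_disjoint h2, h1, Finset.card_univ, Fintype.card_sum, Fintype.card_fin, Fintype.card_fin, hX] at h4
  unfold pos
  omega

/-- A vertex with a small positive side is spanned by two points of the plane. -/
theorem vert_small (hn : 3 * D ≤ n) (hx : ∀ a < n, ∀ b < n, a ≠ b → x a ≠ x b) (hθ : ∀ i t, i < t → t < 2 * N → θ i < θ t)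
    (hdeep : ∀ t < 2 * N, Deep D x y (arc z (θ t))) {U : Fin 3 → ℝ} {X : Finset (Fin n ⊕ Fin (2 * N))} (hX : X.card = 2)
    (hU : ∀ j, GV n N x y z θ j ⬝ᵥ U = 0 ↔ j ∈ X) (hpos : pos n N x y z θ U + 1 < D + N) :
    ∃ a b : Fin n, a ≠ b ∧ X = {Sum.inl a, Sum.inl b} ∧
      (univ.filter fun l : Fin n => 0 < dt (fun a : Fin n => x a) (fun a : Fin n => y a) a b l).card + N = pos n N x y z θ U := by
  have hU0 : U ≠ 0 := by
    rintro rfl
    have h1 : (univ : Finset (Fin n ⊕ Fin (2 * N))) ⊆ X := by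
      intro j _
      rw [← hU j, dotProduct_zero]
    have h2 := Finset.card_le_card h1
    rw [Finset.card_univ, Fintype.card_sum, Fintype.card_fin, Fintype.card_fin, hX] at h2
    have : D + N ≤ 2 := by omega
    have h3 : pos n N x y z θ 0 = 0 := by
      unfold pos
      simp
    omega
  have hneg := (dicho (N := N) hn hθ hdeep U hU0).resolve_right (by
    rintro ⟨-, h1⟩
    omega)
  have hp := pos_neg hneg
  have hinl : ∀ j ∈ X, ∃ a : Fin n, j = Sum.inl a := by
    intro j hj
    rcases j with a | t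
    · exact ⟨a, rfl⟩
    · exfalso
      have h1 := (hU (Sum.inr t)).2 hj
      rw [GV_dot, mul_eq_zero] at h1
      exact (hneg t).ne (h1.resolve_left (sg_ne _))
  obtain ⟨j, j', hjj, hXe⟩ := Finset.card_eq_two.1 hX
  obtain ⟨a, rfl⟩ := hinl j (by rw [hXe]; simp)
  obtain ⟨b, rfl⟩ := hinl j' (by rw [hXe]; simp)
  have hab : a ≠ b := fun h => hjj (by rw [h])
  have hfa : fe (fun a : Fin n => x a) (fun a : Fin n => y a) U a = 0 := by
    rw [← GV_inl (N := N) (z := z) (θ := θ), hU, hXe]
    simp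
  have hfb : fe (fun a : Fin n => x a) (fun a : Fin n => y a) U b = 0 := by
    rw [← GV_inl (N := N) (z := z) (θ := θ), hU, hXe]
    simp
  have hprop := fe_prop hfa hfb
  have hxab : x b - x a ≠ 0 := sub_ne_zero.2 (hx b b.2 a a.2 (fun h => hab (Fin.ext h.symm)))
  have hU2 : U 2 ≠ 0 := by
    intro h0
    -- all the points of the plane are on the line, three of them are not
    have hz : ∀ j : Fin n, fe (fun a : Fin n => x a) (fun a : Fin n => y a) U j = 0 := by
      intro j
      have h1 := hprop j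
      rw [h0, zero_mul] at h1
      exact (mul_eq_zero.1 h1).resolve_right hxab
    have h2 : univ.image (Sum.inl : Fin n → Fin n ⊕ Fin (2 * N)) ⊆ X := by
      intro j hj
      obtain ⟨i, -, rfl⟩ := Finset.mem_image.1 hj
      rw [← hU, GV_inl, hz]
    have h3 := Finset.card_le_card h2
    rw [Finset.card_image_of_injective _ Sum.inl_injective, Finset.card_univ, Fintype.card_fin, hX] at h3
    have hD : D = 0 := by omega
    have h4 : N ≤ pos n N x y z θ U := by omega
    omega
  rcases lt_or_gt_of_ne (div_ne_zero hU2 hxab) with hκ | hκ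
  · refine ⟨b, a, hab.symm, by rw [hXe, Finset.pair_comm], ?_⟩
    rw [hp]
    unfold posl
    congr 2
    ext l
    rw [Finset.mem_filter, Finset.mem_filter, dt_swap]
    have e : fe (fun a : Fin n => x a) (fun a : Fin n => y a) U l = U 2 / (x b - x a) * dt (fun a : Fin n => x a) (fun a : Fin n => y a) a b l := by
      rw [div_mul_eq_mul_div, eq_div_iff hxab]
      exact hprop l
    rw [e]
    constructor
    · rintro ⟨h1, h2⟩
      exact ⟨h1, by nlinarith⟩
    · rintro ⟨h1, h2⟩
      refine ⟨h1, ?_⟩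
      by_contra h3
      have : U 2 / (x b - x a) * dt (fun a : Fin n => x a) (fun a : Fin n => y a) a b l ≤ 0 :=
        mul_nonpos_of_nonpos_of_nonneg hκ.le (by linarith)
      linarith
  · refine ⟨a, b, hab, hXe, ?_⟩
    rw [hp]
    unfold posl
    congr 2
    ext l
    rw [Finset.mem_filter, Finset.mem_filter]
    have e : fe (fun a : Fin n => x a) (fun a : Fin n => y a) U l = U 2 / (x b - x a) * dt (fun a : Fin n => x a) (fun a : Fin n => y a) a b l := by
      rw [div_mul_eq_mul_div, eq_div_iff hxab]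
      exact hprop l
    rw [e]
    exact and_congr_right fun _ => (mul_pos_iff_of_pos_left hκ).symm

/-- An ordered pair with few points on the left side gives a vertex with a small positive side. -/
theorem vert_conv (hn : 3 * D ≤ n) (hθ : ∀ i t, i < t → t < 2 * N → θ i < θ t)
    (hdeep : ∀ t < 2 * N, Deep D x y (arc z (θ t))) {U : Fin 3 → ℝ} {a b : Fin n} (hxab : x a ≠ x b)
    (hU : ∀ j, GV n N x y z θ j ⬝ᵥ U = 0 ↔ j ∈ ({Sum.inl a, Sum.inl b} : Finset (Fin n ⊕ Fin (2 * N)))) (hU0 : U ≠ 0) (v : ℕ) (hvD : v < D)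
    (hv : (univ.filter fun l : Fin n => 0 < dt (fun a : Fin n => x a) (fun a : Fin n => y a) a b l).card = v) :
    pos n N x y z θ U = v + N ∨ pos n N x y z θ (-U) = v + N := by
  have hfa : fe (fun a : Fin n => x a) (fun a : Fin n => y a) U a = 0 := by
    rw [← GV_inl (N := N) (z := z) (θ := θ), hU]
    simp
  have hfb : fe (fun a : Fin n => x a) (fun a : Fin n => y a) U b = 0 := by
    rw [← GV_inl (N := N) (z := z) (θ := θ), hU]
    simp
  have hprop := fe_prop hfa hfb
  have hxab' : x b - x a ≠ 0 := sub_ne_zero.2 (Ne.symm hxab)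
  have hU2 : U 2 ≠ 0 := by
    intro h0
    have hz : ∀ j : Fin n, fe (fun a : Fin n => x a) (fun a : Fin n => y a) U j = 0 := by
      intro j
      have h1 := hprop j
      rw [h0, zero_mul] at h1
      exact (mul_eq_zero.1 h1).resolve_right hxab'
    have h2 : univ.image (Sum.inl : Fin n → Fin n ⊕ Fin (2 * N)) ⊆ {Sum.inl a, Sum.inl b} := by
      intro j hj
      obtain ⟨i, -, rfl⟩ := Finset.mem_image.1 hj
      rw [← hU, GV_inl, hz]
    have h3 := Finset.card_le_card h2
    rw [Finset.card_image_of_injective _ Sum.inl_injective, Finset.card_univ, Fintype.card_fin] at h3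
    have h4 : ({Sum.inl a, Sum.inl b} : Finset (Fin n ⊕ Fin (2 * N))).card ≤ 2 := Finset.card_le_two
    omega
  have hU0' : -U ≠ 0 := neg_ne_zero.2 hU0
  have e : ∀ l, fe (fun a : Fin n => x a) (fun a : Fin n => y a) U l = U 2 / (x b - x a) * dt (fun a : Fin n => x a) (fun a : Fin n => y a) a b l := by
    intro l
    rw [div_mul_eq_mul_div, eq_div_iff hxab']
    exact hprop l
  have eneg : ∀ l, fe (fun a : Fin n => x a) (fun a : Fin n => y a) (-U) l = -fe (fun a : Fin n => x a) (fun a : Fin n => y a) U l := by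
    intro l
    unfold fe
    simp
    ring
  rcases lt_or_gt_of_ne (div_ne_zero hU2 hxab') with hκ | hκ
  · right
    have hpl : posl n x y (-U) = v := by
      rw [← hv]
      unfold posl
      congr 1
      ext l
      rw [Finset.mem_filter, Finset.mem_filter, eneg, e]
      constructor
      · rintro ⟨h1, h2⟩
        refine ⟨h1, ?_⟩
        by_contra h3
        have : 0 ≤ U 2 / (x b - x a) * dt (fun a : Fin n => x a) (fun a : Fin n => y a) a b l :=
          mul_nonneg_of_nonpos_of_nonpos hκ.le (not_lt.1 h3)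
        linarith
      · rintro ⟨h1, h2⟩
        exact ⟨h1, by nlinarith⟩
    have hneg := (dicho (N := N) hn hθ hdeep (-U) hU0').resolve_right (by
      rintro ⟨h1, -⟩
      omega)
    rw [pos_neg hneg, hpl]
  · left
    have hpl : posl n x y U = v := by
      rw [← hv]
      unfold posl
      congr 1
      ext l
      rw [Finset.mem_filter, Finset.mem_filter, e]
      exact and_congr_right fun _ => mul_pos_iff_of_pos_left hκ
    have hneg := (dicho (N := N) hn hθ hdeep U hU0).resolve_right (by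
      rintro ⟨h1, -⟩
      omega)
    rw [pos_neg hneg, hpl]

end

end Pool.Agent.RIS
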